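import Mathlib

/-!
# The Erdős–Gallai theorem for finite simple graphs

Sufficiency follows the constructive proof of Tripathi, Venugopalan and West.
-/

set_option autoImplicit false

namespace Pool.Agent.H28.EG

open Finset

variable {n : ℕ}

/-- the degree of a vertex -/
noncomputable def deg (G : SimpleGraph (Fin n)) (v : Fin n) : ℕ := (G.neighborSet v).ncard

/-- indicator of equality -/
def ind (z x : Fin n) : ℕ := if z = x then 1 else 0

theorem ind_self (z : Fin n) : ind z z = 1 := by simp [ind]

theorem ind_ne {z x : Fin n} (h : z ≠ x) : ind z x = 0 := by simp [ind, h]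

theorem deg_add (G : SimpleGraph (Fin n)) {x y : Fin n} (hxy : x ≠ y) (h : ¬ G.Adj x y) (z : Fin n) :
    deg (G ⊔ SimpleGraph.edge x y) z = deg G z + ind z x + ind z y := by
  unfold deg
  by_cases hzx : z = x
  · subst hzx
    have h1 : (G ⊔ SimpleGraph.edge z y).neighborSet z = insert y (G.neighborSet z) := by
      ext w
      simp only [SimpleGraph.mem_neighborSet, SimpleGraph.sup_adj, SimpleGraph.edge_adj,
        Set.mem_insert_iff]
      grind
    rw [h1, Set.ncard_insert_of_notMem (by simpa using h), ind_self, ind_ne hxy]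
  · by_cases hzy : z = y
    · subst hzy
      have h1 : (G ⊔ SimpleGraph.edge x z).neighborSet z = insert x (G.neighborSet z) := by
        ext w
        simp only [SimpleGraph.mem_neighborSet, SimpleGraph.sup_adj, SimpleGraph.edge_adj,
          Set.mem_insert_iff]
        grind
      rw [h1, Set.ncard_insert_of_notMem (by simpa using fun h' => h (G.adj_symm h')), ind_self,
        ind_ne hzx]
    · have h1 : (G ⊔ SimpleGraph.edge x y).neighborSet z = G.neighborSet z := by
        ext w
        simp only [SimpleGraph.mem_neighborSet, SimpleGraph.sup_adj, SimpleGraph.edge_adj]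
        grind
      rw [h1, ind_ne hzx, ind_ne hzy, add_zero, add_zero]

theorem deg_del (G : SimpleGraph (Fin n)) {x y : Fin n} (h : G.Adj x y) (z : Fin n) :
    deg (G \ SimpleGraph.edge x y) z + ind z x + ind z y = deg G z := by
  have hxy : x ≠ y := G.ne_of_adj h
  have hn : ¬ (G \ SimpleGraph.edge x y).Adj x y := by
    simp [SimpleGraph.edge_adj, hxy]
  have h2 := deg_add (G \ SimpleGraph.edge x y) hxy hn z
  rw [← h2]
  congr 1
  ext a b
  simp only [SimpleGraph.sup_adj, SimpleGraph.sdiff_adj, SimpleGraph.edge_adj]
  have := G.adj_symm h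
  grind

theorem adj_add {G : SimpleGraph (Fin n)} {x y a b : Fin n} :
    (G ⊔ SimpleGraph.edge x y).Adj a b ↔ G.Adj a b ∨ ((a = x ∧ b = y ∨ a = y ∧ b = x) ∧ a ≠ b) := by
  simp [SimpleGraph.edge_adj]

theorem adj_del {G : SimpleGraph (Fin n)} {x y a b : Fin n} :
    (G \ SimpleGraph.edge x y).Adj a b ↔ G.Adj a b ∧ ¬ (a = x ∧ b = y ∨ a = y ∧ b = x) := by
  simp only [SimpleGraph.sdiff_adj, SimpleGraph.edge_adj]
  constructor
  · rintro ⟨h1, h2⟩
    exact ⟨h1, fun h3 => h2 ⟨h3, G.ne_of_adj h1⟩⟩
  · rintro ⟨h1, h2⟩
    exact ⟨h1, fun h3 => h2 h3.1⟩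

/-- handshake parity -/
theorem even_sum_deg (G : SimpleGraph (Fin n)) : Even (∑ i, deg G i) := by
  classical
  have h : ∀ i, deg G i = G.degree i := by
    intro i
    unfold deg
    rw [Set.ncard_eq_toFinset_card', ← SimpleGraph.card_neighborSet_eq_degree, Set.toFinset_card]
  simp only [h]
  rw [SimpleGraph.sum_degrees_eq_twice_card_edges]
  exact even_two_mul _

open Classical in
/-- a neighbour of `i` outside `N(r) ∪ {r}`, when `i` is adjacent to `r` and has larger degree -/
theorem exists_nbr {G : SimpleGraph (Fin n)} {i r : Fin n} (h : deg G r < deg G i) :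
    ∃ u, G.Adj i u ∧ ¬ G.Adj r u ∧ u ≠ r := by
  by_contra hcon
  push Not at hcon
  have hsub : G.neighborSet i ⊆ insert r (G.neighborSet r) \ (if G.Adj r i then {i} else {r}) := by
    intro u hu
    have hu' : G.Adj i u := hu
    by_cases hri : G.Adj r i
    · simp only [hri, if_true]
      refine ⟨?_, fun h => G.ne_of_adj hu' (Set.mem_singleton_iff.mp h).symm⟩
      by_cases hru : G.Adj r u
      · right; exact hru
      · left; exact hcon u hu' hru
    · simp only [hri, if_false]
      have hur : u ≠ r := fun h => hri (G.adj_symm (h ▸ hu'))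
      refine ⟨?_, hur⟩
      by_cases hru : G.Adj r u
      · right; exact hru
      · exact absurd (hcon u hu' hru) hur
  have hcard := Set.ncard_le_ncard hsub (Set.toFinite _)
  have h2 : (insert r (G.neighborSet r) \ (if G.Adj r i then ({i} : Set (Fin n)) else {r})).ncard
      ≤ (G.neighborSet r).ncard := by
    by_cases hri : G.Adj r i
    · simp only [hri, if_true]
      rw [Set.ncard_sdiff_singleton_of_mem (Set.mem_insert_of_mem r (show i ∈ G.neighborSet r from hri))]
      have := Set.ncard_insert_le r (G.neighborSet r)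
      omega
    · simp only [hri, if_false]
      rw [Set.ncard_sdiff_singleton_of_mem (Set.mem_insert _ _)]
      have := Set.ncard_insert_le r (G.neighborSet r)
      omega
  unfold deg at h
  omega

end Pool.Agent.H28.EG
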