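import Mathlib

/-!
# The inequality part of the upper bound for the graphicality threshold
-/

set_option autoImplicit false

namespace Pool.Agent.H28.EG

open Finset

theorem top_loss (b : ℕ → ℤ) (k d : ℤ) (hd : 0 ≤ d) (h0 : b 0 = k) (hk : ∀ i, b i ≤ k)
    (hgap : ∀ i, b i ≤ b (i + 1) + d) (r : ℕ) : ∀ κ : ℕ,
    2 * (κ : ℤ) * (k - b r) ≤ 2 * ∑ i ∈ range (r + 1), (k - b i) + d * κ * (κ - 1) := by
  induction r with
  | zero =>
    intro κ
    simp only [zero_add, range_one, sum_singleton, h0, sub_self, mul_zero]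
    rcases Nat.eq_zero_or_pos κ with h | h
    · subst h; simp
    · have h1 : (1 : ℤ) ≤ κ := by exact_mod_cast h
      have : 0 ≤ d * κ * (κ - 1) := mul_nonneg (mul_nonneg hd (by linarith)) (by linarith)
      linarith
  | succ r ih =>
    intro κ
    rw [sum_range_succ]
    rcases Nat.eq_zero_or_pos κ with h | h
    · subst h
      have h1 := ih 0
      have h2 := hk (r + 1)
      simp only [Nat.cast_zero, mul_zero, zero_mul, add_zero] at h1 ⊢
      linarith
    · obtain ⟨j, rfl⟩ : ∃ j, κ = j + 1 := ⟨κ - 1, by omega⟩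
      have h1 := ih j
      have h2 := hgap r
      push_cast
      have h3 : 2 * (j : ℤ) * (k - b (r + 1) - d) ≤ 2 * (j : ℤ) * (k - b r) :=
        mul_le_mul_of_nonneg_left (by linarith) (by positivity)
      nlinarith

theorem bottom_loss (b : ℕ → ℤ) (s d : ℤ) (hd : 0 ≤ d) (hs : ∀ i, s ≤ b i)
    (hgap : ∀ i, b i ≤ b (i + 1) + d) (m : ℕ) : ∀ p κ : ℕ, b (p + m) = s →
    2 * (κ : ℤ) * (b p - s) ≤ 2 * ∑ i ∈ range (m + 1), (b (p + i) - s) + d * κ * (κ - 1) := by
  induction m with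
  | zero =>
    intro p κ hp
    simp only [zero_add, range_one, sum_singleton, add_zero] at hp ⊢
    rw [hp]
    simp only [sub_self, mul_zero]
    rcases Nat.eq_zero_or_pos κ with h | h
    · subst h; simp
    · have h1 : (1 : ℤ) ≤ κ := by exact_mod_cast h
      have : 0 ≤ d * κ * (κ - 1) := mul_nonneg (mul_nonneg hd (by linarith)) (by linarith)
      linarith
  | succ m ih =>
    intro p κ hp
    have hp' : b (p + 1 + m) = s := by rw [← hp]; congr 1; omega
    rw [sum_range_succ']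
    have e : ∑ i ∈ range (m + 1), (b (p + (i + 1)) - s) = ∑ i ∈ range (m + 1), (b (p + 1 + i) - s) := by
      apply sum_congr rfl; intro i _; congr 2; omega
    rw [e, add_zero]
    rcases Nat.eq_zero_or_pos κ with h | h
    · subst h
      have h1 := ih (p + 1) 0 hp'
      have h2 := hs p
      simp only [Nat.cast_zero, mul_zero, zero_mul, add_zero] at h1 ⊢
      linarith
    · obtain ⟨j, rfl⟩ : ∃ j, κ = j + 1 := ⟨κ - 1, by omega⟩
      have h1 := ih (p + 1) j hp'
      have h2 := hgap p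
      push_cast
      have h3 : 2 * (j : ℤ) * (b p - s - d) ≤ 2 * (j : ℤ) * (b (p + 1) - s) :=
        mul_le_mul_of_nonneg_left (by linarith) (by positivity)
      nlinarith

theorem gap_chain (b : ℕ → ℤ) (d : ℤ) (hgap : ∀ i, b i ≤ b (i + 1) + d) (i u : ℕ) :
    b i ≤ b (i + u) + u * d := by
  induction u with
  | zero => simp
  | succ u ih =>
    have := hgap (i + u)
    push_cast
    rw [← add_assoc]
    linarith

/-- the numerical inequality behind the case of small `r` -/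
theorem num_ineq {M ρ δ d c : ℤ} (hM : 1 ≤ M) (hρ : 0 ≤ ρ) (hδ : 1 ≤ δ) (hd : ρ + 1 ≤ d)
    (hc : c = 0 ∨ (c = 1 ∧ 2 ≤ M)) :
    4 * (δ * (M + 2 * ρ - δ * d)) + 4 - 4 * ρ ≤ (M + 1) ^ 2 - c := by
  have h1 : δ * (M + 2 * ρ - δ * d) ≤ δ * (M + 2 * ρ - δ * (ρ + 1)) := by
    apply mul_le_mul_of_nonneg_left _ (by linarith)
    have := mul_le_mul_of_nonneg_left hd (show 0 ≤ δ by linarith)
    linarith
  have h2 : 0 ≤ ρ * (δ - 1) ^ 2 := mul_nonneg hρ (sq_nonneg _)
  have h3 : c ≤ (M - 2 * δ) ^ 2 + 2 * M - 3 := by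
    rcases hc with hc | ⟨hc, hM2⟩
    · subst hc
      rcases eq_or_lt_of_le hM with h | h
      · rw [← h]; nlinarith
      · nlinarith [sq_nonneg (M - 2 * δ)]
    · nlinarith [sq_nonneg (M - 2 * δ)]
  nlinarith

theorem quarter {K P r : ℤ} (hP2 : K ^ 2 ≤ 4 * P + 1) : r * (K - r) ≤ P := by
  have h1 : 4 * (r * (K - r)) ≤ 4 * P + 1 := by nlinarith [sq_nonneg (K - 2 * r)]
  omega

theorem quarter' {K P r : ℤ} (hP2 : K ^ 2 ≤ 4 * P + 1) (h : 2 ≤ K - 2 * r) : r * (K - r) ≤ P - 1 := by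
  have h1 : 4 * (r * (K - r)) ≤ 4 * P + 1 - 4 := by nlinarith
  omega

/-- All Erdős–Gallai inequalities hold for a long enough list with gaps at most `d`. -/
theorem all_ineq (n : ℕ) (b : ℕ → ℤ) (k s d P : ℤ) (κ : ℕ) (hs1 : 1 ≤ s) (hd1 : 1 ≤ d)
    (hP1 : 4 * P ≤ (k + s + 1) ^ 2) (hP2 : (k + s + 1) ^ 2 ≤ 4 * P + 1)
    (hnk : k + 1 ≤ n) (hn : P - κ * (k - s - κ * d) - 1 ≤ s * n)
    (hb0 : b 0 = k) (hbn : b (n - 1) = s) (hbk : ∀ i, b i ≤ k) (hbs : ∀ i, s ≤ b i)
    (hanti : ∀ i j, i ≤ j → b j ≤ b i) (hgap : ∀ i, b i ≤ b (i + 1) + d)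
    (heven : Even (∑ i ∈ range n, b i)) (r : ℕ) (hr1 : 1 ≤ r) (hrn : r ≤ n) :
    ∑ i ∈ range r, b i ≤ (r : ℤ) * (r - 1) + ∑ i ∈ Ico r n, min (r : ℤ) (b i) := by
  have hrZ : (1 : ℤ) ≤ r := by exact_mod_cast hr1
  have hrnZ : (r : ℤ) ≤ n := by exact_mod_cast hrn
  have hsum_le : ∑ i ∈ range r, b i ≤ r * k := by
    have := sum_le_sum (fun i (_ : i ∈ range r) => hbk i)
    simpa using this
  -- Case A
  by_cases hA : (r : ℤ) ≤ s
  · have h1 : ∑ i ∈ Ico r n, min (r : ℤ) (b i) = (n - r) * r := by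
      have : ∑ i ∈ Ico r n, min (r : ℤ) (b i) = ∑ i ∈ Ico r n, (r : ℤ) := by
        apply sum_congr rfl; intro i _
        exact min_eq_left (hA.trans (hbs i))
      rw [this, sum_const, Nat.card_Ico, nsmul_eq_mul, Nat.cast_sub hrn]
    rw [h1]
    nlinarith
  push Not at hA
  -- Case B
  by_cases hB : k < r
  · have h1 : 0 ≤ ∑ i ∈ Ico r n, min (r : ℤ) (b i) := by
      apply sum_nonneg; intro i _
      exact le_min (by linarith) (by linarith [hbs i])
    nlinarith
  push Not at hB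
  have hrn' : r < n := by
    have : (r : ℤ) < n := by linarith
    exact_mod_cast this
  have hT : ∑ i ∈ range r, (k - b i) = r * k - ∑ i ∈ range r, b i := by
    rw [sum_sub_distrib]; simp
  -- general facts about r (k+s+1-r)
  have hQ : 4 * ((r : ℤ) * (k + s + 1 - r)) = (k + s + 1) ^ 2 - (k + s + 1 - 2 * r) ^ 2 := by ring
  by_cases hC1 : b r ≤ r
  · -- bottom entries at most r : parity
    have hmin : ∑ i ∈ Ico r n, min (r : ℤ) (b i) = ∑ i ∈ Ico r n, b i := by
      apply sum_congr rfl; intro i hi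
      rw [mem_Ico] at hi
      exact min_eq_right ((hanti r i hi.1).trans hC1)
    rw [hmin]
    obtain ⟨m, hm⟩ : ∃ m, r + m = n - 1 := ⟨n - 1 - r, by omega⟩
    have hB1 := bottom_loss b s d (by linarith) hbs hgap m r κ (by rw [hm]; exact hbn)
    have hbsum : ∑ i ∈ range (m + 1), (b (r + i) - s) = ∑ i ∈ Ico r n, b i - (n - r) * s := by
      rw [sum_Ico_eq_sum_range, show n - r = m + 1 by omega, sum_sub_distrib, sum_const, card_range,
        nsmul_eq_mul]
      have : ((m + 1 : ℕ) : ℤ) = n - r := by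
        rw [show m + 1 = n - r by omega, Nat.cast_sub hrn]
      rw [this]
    obtain ⟨r0, rfl⟩ : ∃ r0, r = r0 + 1 := ⟨r - 1, by omega⟩
    have hT1 := top_loss b k d (by linarith) hb0 hbk hgap r0 κ
    rw [hT] at hT1
    rw [hbsum] at hB1
    have hg := hgap r0
    have hg2 : 2 * (κ : ℤ) * (b r0 - b (r0 + 1)) ≤ 2 * (κ : ℤ) * d :=
      mul_le_mul_of_nonneg_left (by linarith) (by positivity)
    have hsplit : ∑ i ∈ range n, b i = ∑ i ∈ range (r0 + 1), b i + ∑ i ∈ Ico (r0 + 1) n, b i := by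
      rw [sum_range_add_sum_Ico _ hrn]
    set S1 := ∑ i ∈ range (r0 + 1), b i with hS1
    set S2 := ∑ i ∈ Ico (r0 + 1) n, b i with hS2
    set R : ℤ := ((r0 + 1 : ℕ) : ℤ) with hR
    have hle : S1 - S2 - R * (R - 1) ≤ 1 := by
      have h4 : R * (k + s + 1 - R) ≤ P := quarter hP2
      linarith
    rcases heven with ⟨e, he⟩
    obtain ⟨f, hf⟩ : Even (R * (R - 1)) := by
      have := Int.even_mul_succ_self (R - 1)
      rw [show R - 1 + 1 = R by ring, mul_comm] at this
      exact this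
    rw [hsplit] at he
    omega
  push Not at hC1
  -- find r'
  have hex : ∃ j, r ≤ j ∧ b j ≤ r := ⟨n - 1, by omega, by rw [hbn]; linarith⟩
  classical
  obtain ⟨r', ⟨hrr', hbr'⟩, hmin'⟩ : ∃ r', (r ≤ r' ∧ b r' ≤ r) ∧ ∀ j, j < r' → ¬ (r ≤ j ∧ b j ≤ r) :=
    ⟨Nat.find hex, Nat.find_spec hex, fun j hj => Nat.find_min hex hj⟩
  have hr'ne : r' ≠ r := fun h => by rw [h] at hbr'; linarith
  have hr'lt : r < r' := lt_of_le_of_ne hrr' (Ne.symm hr'ne)
  have hr'n : r' ≤ n - 1 := by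
    by_contra hcon
    push Not at hcon
    exact hmin' (n - 1) hcon ⟨by omega, by rw [hbn]; linarith⟩
  obtain ⟨u, hu⟩ : ∃ u, r' = r + u := ⟨r' - r, by omega⟩
  have hu1 : 1 ≤ u := by omega
  have huZ : (1 : ℤ) ≤ u := by exact_mod_cast hu1
  have hmid : ∀ i, r ≤ i → i < r' → (r : ℤ) + 1 ≤ b i := by
    intro i h1 h2
    have := hmin' i h2
    by_contra hcon
    exact this ⟨h1, by linarith [not_le.mp hcon]⟩
  have hminsum : ∑ i ∈ Ico r n, min (r : ℤ) (b i) = u * r + ∑ i ∈ Ico r' n, b i := by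
    rw [← sum_Ico_consecutive _ hrr' (by omega : r' ≤ n)]
    congr 1
    · have : ∑ i ∈ Ico r r', min (r : ℤ) (b i) = ∑ i ∈ Ico r r', (r : ℤ) := by
        apply sum_congr rfl; intro i hi
        rw [mem_Ico] at hi
        exact min_eq_left (by linarith [hmid i hi.1 hi.2])
      rw [this, sum_const, Nat.card_Ico, nsmul_eq_mul, hu]
      congr 1
      push_cast [Nat.add_sub_cancel_left]
      simp
    · apply sum_congr rfl; intro i hi
      rw [mem_Ico] at hi
      exact min_eq_right ((hanti r' i hi.1).trans hbr')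
  rw [hminsum]
  obtain ⟨m, hm⟩ : ∃ m, r' + m = n - 1 := ⟨n - 1 - r', by omega⟩
  have hB1 : ∀ κ' : ℕ, _ := fun κ' => bottom_loss b s d (by linarith) hbs hgap m r' κ' (by rw [hm]; exact hbn)
  have hbsum : ∑ i ∈ range (m + 1), (b (r' + i) - s) = ∑ i ∈ Ico r' n, b i - (n - r') * s := by
    rw [sum_Ico_eq_sum_range, show n - r' = m + 1 by omega, sum_sub_distrib, sum_const, card_range,
      nsmul_eq_mul]
    have : ((m + 1 : ℕ) : ℤ) = n - r' := by
      rw [show m + 1 = n - r' by omega, Nat.cast_sub (by omega)]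
    rw [this]
  rw [hbsum] at hB1
  have hr'Z : (r' : ℤ) = r + u := by rw [hu]; push_cast; ring
  rw [hr'Z] at hB1
  set S3 := ∑ i ∈ Ico r' n, b i with hS3
  by_cases hC2 : k + s ≤ 2 * r
  · -- C2-a
    obtain ⟨r0, hr0⟩ : ∃ r0, r' = r0 + 1 := ⟨r' - 1, by omega⟩
    have hT1 := top_loss b k d (by linarith) hb0 hbk hgap r0 κ
    rw [← hr0] at hT1
    have hTsplit : ∑ i ∈ range r', (k - b i) ≤ (r * k - ∑ i ∈ range r, b i) + u * (k - r - 1) := by
      rw [← sum_range_add_sum_Ico _ hrr', hT]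
      apply add_le_add_right
      have h5 : ∑ i ∈ Ico r r', (k - b i) ≤ ∑ i ∈ Ico r r', (k - r - 1) := by
        apply sum_le_sum; intro i hi
        rw [mem_Ico] at hi
        linarith [hmid i hi.1 hi.2]
      rw [sum_const, Nat.card_Ico, nsmul_eq_mul, hu] at h5
      push_cast [Nat.add_sub_cancel_left] at h5
      rw [hu]
      convert h5 using 2
    have hg := hgap r0
    rw [← hr0] at hg
    have hg2 : 2 * (κ : ℤ) * (b r0 - b r') ≤ 2 * (κ : ℤ) * d :=
      mul_le_mul_of_nonneg_left (by linarith) (by positivity)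
    have hB2 := hB1 κ
    have h4 : (r : ℤ) * (k + s + 1 - r) ≤ P := quarter hP2
    have h6 : (u : ℤ) * (k - r - 1) ≤ u * (r - s - 1) :=
      mul_le_mul_of_nonneg_left (by linarith) (by linarith)
    linarith
  · push Not at hC2
    -- C2-b
    obtain ⟨r0, hr0⟩ : ∃ r0, r = r0 + 1 := ⟨r - 1, by omega⟩
    have hT1 : ∀ κ' : ℕ, _ := fun κ' => top_loss b k d (by linarith) hb0 hbk hgap r0 κ'
    rw [← hr0, hT] at hT1
    have hg := gap_chain b d hgap r0 (u + 1)
    rw [show r0 + (u + 1) = r' by omega] at hg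
    push_cast at hg
    -- lower bound for the loss with any slope
    have hloss : ∀ q : ℕ, (q : ℤ) * (k - s - q * d) + u * (r - s - q * d) ≤
        (r * k - ∑ i ∈ range r, b i) + (S3 - (n - (r + u)) * s) + u * (r - s) := by
      intro q
      have h7 := hT1 q
      have h8 := hB1 q
      have h9 : 2 * (q : ℤ) * (b r0 - b r') ≤ 2 * (q : ℤ) * ((u + 1) * d) :=
        mul_le_mul_of_nonneg_left (by linarith) (by positivity)
      linarith
    have hM : 1 ≤ k + s - 2 * (r : ℤ) := by linarith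
    by_cases hκ : (κ : ℤ) * d ≤ r - s
    · have h10 := hloss κ
      have h11 : 0 ≤ (u : ℤ) * (r - s - κ * d) := mul_nonneg (by linarith) (by linarith)
      have h12 : (r : ℤ) * (k + s + 1 - r) ≤ P - 1 := quarter' hP2 (by linarith)
      linarith
    · push Not at hκ
      -- q = floor (h / d)
      have hdpos : 0 < d := by linarith
      have hh0 : 0 ≤ (r : ℤ) - s := by linarith
      obtain ⟨q, hq⟩ : ∃ q : ℕ, (q : ℤ) = ((r : ℤ) - s) / d :=
        ⟨(((r : ℤ) - s) / d).toNat, Int.toNat_of_nonneg (Int.ediv_nonneg hh0 hdpos.le)⟩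
      have hρ0 : 0 ≤ (r : ℤ) - s - q * d := by
        rw [hq]; have := Int.emod_nonneg ((r : ℤ) - s) hdpos.ne'
        have h2 := Int.emod_add_mul_ediv ((r : ℤ) - s) d
        linarith
      have hρ1 : (r : ℤ) - s - q * d + 1 ≤ d := by
        rw [hq]; have := Int.emod_lt_of_pos ((r : ℤ) - s) hdpos
        have h2 := Int.emod_add_mul_ediv ((r : ℤ) - s) d
        linarith
      have hδ : 1 ≤ (κ : ℤ) - q := by
        have h16 : (q : ℤ) * d < κ * d := by linarith
        have h17 := lt_of_mul_lt_mul_right h16 hdpos.le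
        omega
      have h10 := hloss q
      have h11 : 1 * ((r : ℤ) - s - q * d) ≤ u * (r - s - q * d) :=
        mul_le_mul_of_nonneg_right huZ hρ0
      have hc : ((k + s + 1) ^ 2 - 4 * P = 0) ∨ ((k + s + 1) ^ 2 - 4 * P = 1 ∧ 2 ≤ k + s - 2 * (r : ℤ)) := by
        have h13 : (k + s + 1) ^ 2 - 4 * P = 0 ∨ (k + s + 1) ^ 2 - 4 * P = 1 := by omega
        rcases h13 with h | h
        · left; exact h
        · right
          refine ⟨h, ?_⟩
          by_contra hcon
          have hM1 : k + s - 2 * (r : ℤ) = 1 := by omega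
          have hks : k + s = 2 * r + 1 := by linarith
          rw [hks] at h
          have : (2 * (r : ℤ) + 1 + 1) ^ 2 = 4 * ((r + 1) * (r + 1)) := by ring
          rw [this] at h
          omega
      have hnum := num_ineq hM hρ0 hδ hρ1 hc
      -- Λ - g(q)
      have hΛ : (κ : ℤ) * (k - s - κ * d) - q * (k - s - q * d) =
          ((κ : ℤ) - q) * (k + s - 2 * r + 2 * (r - s - q * d) - (κ - q) * d) := by ring
      have h14 : 4 * ((r : ℤ) * (k + s + 1 - r)) ≤
          4 * (P - κ * (k - s - κ * d) - 1 + q * (k - s - q * d) + (r - s - q * d)) := by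
        rw [hQ]
        linarith
      linarith

end Pool.Agent.H28.EG
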