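import Mathlib

set_option autoImplicit false

namespace Pool.Agent.H28.EG

/-- The nonincreasing sequence `a` of length `n` is a list of the class `L(k,s,d)`:
largest term `k`, smallest term `s`, even sum, consecutive terms differ by at most `d`. -/
structure InClass (k s d n : ℕ) (a : Fin n → ℕ) : Prop where
  nonincreasing : ∀ i j : Fin n, i ≤ j → a j ≤ a i
  le_max : ∀ i, a i ≤ k
  max_mem : ∃ i, a i = k
  min_le : ∀ i, s ≤ a i
  min_mem : ∃ i, a i = s
  even_sum : Even (∑ i, a i)
  gap : ∀ i j : Fin n, j.val = i.val + 1 → a i ≤ a j + d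

/-- Some finite simple graph on `n` vertices has degrees `a 0, …, a (n-1)`. -/
def Graphic (n : ℕ) (a : Fin n → ℕ) : Prop :=
  ∃ G : SimpleGraph (Fin n), ∀ i, (G.neighborSet i).ncard = a i

/-- The value of the threshold: with `κ = ⌊(k - s + d) / (2d)⌋`,
`⌊(⌊(k+s+1)² / 4⌋ - κ (k - s - κ d) - 2) / s⌋ + 1` (integer division, all rounded down). -/
def threshold (k s d : ℤ) : ℤ :=
  let κ := (k - s + d) / (2 * d)
  ((k + s + 1) ^ 2 / 4 - κ * (k - s - κ * d) - 2) / s + 1

end Pool.Agent.H28.EG
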