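import Pool.Agent.H28.EG.Lower

set_option autoImplicit false

namespace Pool.Agent.H28.EG

open Finset

theorem sq_div_four (x : ℕ) : x ^ 2 / 4 = (x + 1) / 2 * (x - (x + 1) / 2) := by
  rcases Nat.even_or_odd' x with ⟨t, ht | ht⟩
  · subst ht
    have h1 : (2 * t + 1) / 2 = t := by omega
    rw [h1, show 2 * t - t = t by omega, show (2 * t) ^ 2 = 4 * (t * t) by ring]
    omega
  · subst ht
    have h1 : (2 * t + 1 + 1) / 2 = t + 1 := by omega
    rw [h1, show 2 * t + 1 - (t + 1) = t by omega, show (2 * t + 1) ^ 2 = 4 * ((t + 1) * t) + 1 by ring]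
    omega

theorem ext_anti (k s d c i : ℕ) : ext k s d c (i + 1) ≤ ext k s d c i := by
  unfold ext
  apply min_le_min_left
  apply Nat.add_le_add_left
  exact Nat.mul_le_mul_left _ (by omega)

theorem ext_gap (k s d c i : ℕ) : ext k s d c i ≤ ext k s d c (i + 1) + d := by
  unfold ext
  have h : d * (c - i) ≤ d * (c - (i + 1)) + d := by
    calc d * (c - i) ≤ d * (c - (i + 1) + 1) := Nat.mul_le_mul_left _ (by omega)
      _ = _ := by ring
  rcases le_total k (s + d * (c - (i + 1))) with h1 | h1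
  · rw [min_eq_left h1]
    exact (min_le_left _ _).trans (by omega)
  · rw [min_eq_right h1]
    exact (min_le_right _ _).trans (by omega)

/-- Abstract form of the construction of a nongraphic list of length `n`. -/
theorem example_general {k s d κ β r n : ℕ} (hsk : s < k) (hd : 1 ≤ d) (hκ1 : 1 ≤ κ) (hκr : κ ≤ r)
    (hrn : r + β + 1 ≤ n)
    (h1 : (β + κ) * d ≤ k - s) (h2 : k - s ≤ (β + κ + 1) * d) (hβ : β = κ ∨ β + 1 = κ)
    (h3 : k - s ≤ (r + β - 1) * d)
    (h4 : (s : ℤ) * n + κ * (k - s - κ * d) + 2 ≤ (r : ℤ) * (k + s + 1 - r)) :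
    ∃ a : Fin n → ℕ, InClass k s d n a ∧ ¬ Graphic n a := by
  have hL := ext_loss hsk hκr (show r + β ≤ n by omega) h1 h2 hβ
  -- number of steps
  obtain ⟨m, hm1, hm2⟩ : ∃ m, k - s ≤ d * m ∧ d * (m - 1) < k - s ∧ 1 ≤ m := by
    refine ⟨(k - s + d - 1) / d, ?_, ?_, ?_⟩
    · have h5 := Nat.lt_mul_div_succ (k - s + d - 1) (show 0 < d by omega)
      rw [mul_add] at h5
      omega
    · have h5 : d * ((k - s + d - 1) / d) ≤ k - s + d - 1 := Nat.mul_div_le _ _
      rw [Nat.mul_sub, mul_one]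
      omega
    · rw [Nat.le_div_iff_mul_le (by omega)]; omega
  obtain ⟨hm2, hm3⟩ := hm2
  have hmc : m ≤ r + β - 1 := by
    by_contra hcon
    push Not at hcon
    have : d * (r + β - 1) ≤ d * (m - 1) := Nat.mul_le_mul_left _ (by omega)
    rw [mul_comm] at h3
    omega
  have hmβ : β < m := by
    by_contra hcon
    push Not at hcon
    have h5 : d * m ≤ d * β := Nat.mul_le_mul_left _ hcon
    have h6 : (β + κ) * d = d * β + d * κ := by ring
    have h7 : 1 ≤ d * κ := Nat.one_le_iff_ne_zero.mpr (by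
      intro h; rcases Nat.mul_eq_zero.mp h with h | h <;> omega)
    omega
  set c := r + β with hc
  set i0 := c - m with hi0
  have hi01 : 1 ≤ i0 := by omega
  have hi0r : i0 < r := by omega
  -- values of ext
  have e1 : ∀ i, i ≤ i0 → ext k s d c i = k := by
    intro i hi
    unfold ext
    apply min_eq_left
    have : d * m ≤ d * (c - i) := Nat.mul_le_mul_left _ (by omega)
    omega
  have e2 : ext k s d c (i0 + 1) ≤ k - 1 := by
    unfold ext
    apply (min_le_right _ _).trans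
    rw [show c - (i0 + 1) = m - 1 by omega]
    omega
  have e3 : ∀ i, c ≤ i → ext k s d c i = s := by
    intro i hi
    unfold ext
    rw [show c - i = 0 by omega, mul_zero, add_zero, min_eq_right hsk.le]
  set S := ∑ i ∈ range n, ext k s d c i with hS
  set e := S % 2 with he
  have he2 : e ≤ 1 := by omega
  let f : ℕ → ℕ := fun i => ext k s d c i - (if i = i0 then e else 0)
  have f0 : ∀ i, i ≠ i0 → f i = ext k s d c i := by
    intro i hi
    show ext k s d c i - (if i = i0 then e else 0) = _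
    rw [if_neg hi]; omega
  have f1 : f i0 = k - e := by
    show ext k s d c i0 - (if i0 = i0 then e else 0) = _
    rw [if_pos rfl, e1 i0 le_rfl]
  have fle : ∀ i, f i ≤ ext k s d c i := fun i => Nat.sub_le _ _
  have hsumf : ∀ t, i0 < t → ∑ i ∈ range t, f i + e = ∑ i ∈ range t, ext k s d c i := by
    intro t ht
    have hmem : i0 ∈ range t := mem_range.mpr ht
    rw [← add_sum_erase _ _ hmem, ← add_sum_erase (range t) (fun i => ext k s d c i) hmem, f1,
      e1 i0 le_rfl]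
    have : ∑ x ∈ (range t).erase i0, f x = ∑ x ∈ (range t).erase i0, ext k s d c x := by
      apply sum_congr rfl
      intro x hx
      exact f0 x (ne_of_mem_erase hx)
    rw [this]
    omega
  have heven : Even (∑ i ∈ range n, f i) := by
    have h5 := hsumf n (by omega)
    rw [Nat.even_iff]
    omega
  refine ⟨fun i => f i.val, inClass_of f (by omega) ?_ ?_ ?_ ?_ heven, ?_⟩
  · rw [f0 0 (by omega), e1 0 (by omega)]
  · rw [f0 (n - 1) (by omega), e3 (n - 1) (by omega)]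
  · intro i _
    by_cases hi : i = i0
    · subst hi
      rw [f1]
      exact (fle _).trans (e2.trans (by omega))
    · rw [f0 i hi]
      exact (fle _).trans (ext_anti k s d c i)
  · intro i _
    by_cases hi : i + 1 = i0
    · rw [hi, f1]
      have : f i ≤ k := (fle i).trans (min_le_left _ _)
      omega
    · rw [f0 (i + 1) hi]
      exact (fle _).trans (ext_gap k s d c i)
  · apply not_graphic_of f (show r ≤ n by omega)
    have h5 := hsumf r hi0r
    have h6 : ∑ i ∈ Ico r n, min r (f i) ≤ ∑ i ∈ Ico r n, ext k s d c i := by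
      apply sum_le_sum; intro i _
      exact (min_le_right _ _).trans (fle i)
    have hr1 : 1 ≤ r := by omega
    have h7 : ((r * (r - 1) : ℕ) : ℤ) = (r : ℤ) * (r - 1) := by
      push_cast [Nat.cast_sub hr1]; ring
    have h8 : ((∑ i ∈ range r, ext k s d c i : ℕ) : ℤ) = ∑ i ∈ range r, (ext k s d c i : ℤ) := by
      push_cast; rfl
    have h9 : ((∑ i ∈ Ico r n, ext k s d c i : ℕ) : ℤ) = ∑ i ∈ Ico r n, (ext k s d c i : ℤ) := by
      push_cast; rfl
    rw [← h8, ← h9, ← h7] at hL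
    have h10 : (2 : ℤ) ≤ ((∑ i ∈ range r, ext k s d c i : ℕ) : ℤ) - ((r * (r - 1) : ℕ) : ℤ) -
        ((∑ i ∈ Ico r n, ext k s d c i : ℕ) : ℤ) := by linarith
    omega

/-- `Λ + 1 ≤ ⌊(L+1)²/4⌋` -/
theorem lam_le {L d κ : ℕ} (hd : 1 ≤ d) (hκ1 : 1 ≤ κ) (hκL : κ * d ≤ L) :
    κ * (L - κ * d) + 1 ≤ (L + 1) ^ 2 / 4 := by
  obtain ⟨x, rfl⟩ : ∃ x, L = κ * d + x := ⟨L - κ * d, by omega⟩
  rw [Nat.add_sub_cancel_left, Nat.le_div_iff_mul_le (by norm_num)]
  have h1 : κ ≤ κ * d := Nat.le_mul_of_pos_right _ hd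
  have h2 : (κ + x + 1) ^ 2 ≤ (κ * d + x + 1) ^ 2 := Nat.pow_le_pow_left (by omega) 2
  refine le_trans ?_ h2
  zify
  have h3 : (1 : ℤ) ≤ κ := by exact_mod_cast hκ1
  have h4 : (0 : ℤ) ≤ x := Int.natCast_nonneg _
  rcases Nat.eq_zero_or_pos x with h | h
  · subst h
    have : (4 : ℤ) ≤ (κ + 1) ^ 2 := by nlinarith
    push_cast
    nlinarith
  · have h5 : (1 : ℤ) ≤ x := by exact_mod_cast h
    nlinarith [sq_nonneg ((κ : ℤ) - x)]

/-- `Λ + 2 ≤ ⌊(L+1)²/4⌋` unless `d = 1` and `L ≤ 2` -/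
theorem lam_le' {L d κ : ℕ} (hd : 1 ≤ d) (hκ1 : 1 ≤ κ) (hκL : κ * d ≤ L)
    (hκ2 : 2 * κ * d ≤ L + d) (hκ3 : L < (2 * κ + 1) * d) (hne : ¬ (d = 1 ∧ L ≤ 2)) :
    κ * (L - κ * d) + 2 ≤ (L + 1) ^ 2 / 4 := by
  rw [Nat.le_div_iff_mul_le (by norm_num)]
  by_cases hd1 : d = 1
  · subst hd1
    obtain ⟨x, rfl⟩ : ∃ x, L = κ + x := ⟨L - κ, by omega⟩
    rw [mul_one, Nat.add_sub_cancel_left]
    have hx : x = κ ∨ x + 1 = κ := by omega
    have hx2 : 3 ≤ κ + x := by
      by_contra h; exact hne ⟨rfl, by omega⟩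
    rcases hx with hx | hx
    · subst hx
      have hx3 : 2 ≤ x := by omega
      nlinarith
    · obtain rfl : κ = x + 1 := hx.symm
      nlinarith
  · obtain ⟨x, rfl⟩ : ∃ x, L = κ * d + x := ⟨L - κ * d, by omega⟩
    rw [Nat.add_sub_cancel_left]
    have h1 : 2 * κ ≤ κ * d := by
      rw [mul_comm 2]; exact Nat.mul_le_mul_left _ (by omega)
    have h2 : (κ + x + 2) ^ 2 ≤ (κ * d + x + 1) ^ 2 := Nat.pow_le_pow_left (by omega) 2
    refine le_trans ?_ h2
    zify
    have h3 : (1 : ℤ) ≤ κ := by exact_mod_cast hκ1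
    have h4 : (0 : ℤ) ≤ x := Int.natCast_nonneg _
    nlinarith [sq_nonneg ((κ : ℤ) - x)]

end Pool.Agent.H28.EG
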