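import Pool.Agent.H28.EG.Threshold

set_option autoImplicit false

namespace Pool.Agent.H28.EG

open Finset

/-- the value of `threshold` in natural number arithmetic -/
theorem threshold_eq {k s d : ℕ} (hs : 1 ≤ s) (hsk : s < k) (hd : 1 ≤ d) (hdk : d ≤ k - s) :
    threshold k s d = ((((k + s + 1) ^ 2 / 4 -
        (k - s + d) / (2 * d) * (k - s - (k - s + d) / (2 * d) * d) - 2) / s + 1 : ℕ) : ℤ) := by
  obtain ⟨hκ1, hκ2, hκ3, hκ4, hκ5⟩ := kappa_facts hd hdk
  have hΛ1 : (k - s + d) / (2 * d) * (k - s - (k - s + d) / (2 * d) * d) + 1 ≤ (k - s + 1) ^ 2 / 4 :=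
    lam_le hd hκ1 hκ4
  have hP := P_eq hsk
  have hge : (k - s + d) / (2 * d) * (k - s - (k - s + d) / (2 * d) * d) + 2 ≤ (k + s + 1) ^ 2 / 4 := by
    have : 1 * 2 ≤ s * (k + 1) := Nat.mul_le_mul hs (by omega)
    omega
  have e1 : (k : ℤ) - s + d = ((k - s + d : ℕ) : ℤ) := by
    push_cast [Nat.cast_sub hsk.le]; ring
  have e2 : ((k : ℤ) - s + d) / (2 * d) = (((k - s + d) / (2 * d) : ℕ) : ℤ) := by
    rw [e1]; push_cast; rfl
  unfold threshold
  simp only [e2]
  set κ := (k - s + d) / (2 * d) with hκ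
  have e3 : ((k : ℤ) + s + 1) ^ 2 / 4 = (((k + s + 1) ^ 2 / 4 : ℕ) : ℤ) := by
    push_cast; rfl
  have e4 : (κ : ℤ) * ((k : ℤ) - s - κ * d) = ((κ * (k - s - κ * d) : ℕ) : ℤ) := by
    push_cast [Nat.cast_sub hκ4, Nat.cast_sub hsk.le]; ring
  rw [e3, e4]
  have e5 : (((k + s + 1) ^ 2 / 4 : ℕ) : ℤ) - ((κ * (k - s - κ * d) : ℕ) : ℤ) - 2 =
      (((k + s + 1) ^ 2 / 4 - κ * (k - s - κ * d) - 2 : ℕ) : ℤ) := by
    have h1 : κ * (k - s - κ * d) ≤ (k + s + 1) ^ 2 / 4 := by omega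
    have h2 : 2 ≤ (k + s + 1) ^ 2 / 4 - κ * (k - s - κ * d) := by omega
    rw [Nat.cast_sub h2, Nat.cast_sub h1]
    rfl
  rw [e5]
  push_cast
  rfl

theorem graphic_two_one_one (n : ℕ) (a : Fin n → ℕ) (ha : InClass 2 1 1 n a) : Graphic n a := by
  have hn : 3 ≤ n := by
    by_contra hcon
    obtain ⟨i, hi⟩ := ha.max_mem
    obtain ⟨j, hj⟩ := ha.min_mem
    have hij : i ≠ j := by
      rintro rfl
      omega
    have hn2 : n = 2 := by
      have h1 := i.isLt
      have h2 := j.isLt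
      have h3 : i.val ≠ j.val := fun h => hij (Fin.ext h)
      omega
    subst hn2
    have hsum : ∑ x, a x = a i + a j := by
      have : (univ : Finset (Fin 2)) = {i, j} := by
        symm
        apply eq_univ_of_card
        rw [card_pair hij, Fintype.card_fin]
      rw [this, sum_pair hij]
    have he := ha.even_sum
    rw [hsum, hi, hj] at he
    exact absurd he (by decide)
  apply graphic_of_long 1 (le_refl 1) (by norm_num) (le_refl 1) ha (by omega)
  have : (3 : ℤ) ≤ n := by exact_mod_cast hn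
  norm_num
  linarith

theorem isLeast_threshold (k s d : ℕ) (hs : 1 ≤ s) (hsk : s < k) (hd : 1 ≤ d) (hdk : d ≤ k - s)
    (hne : ¬ (k = 2 ∧ s = 1 ∧ d = 1)) :
    IsLeast {N : ℤ | ∀ n : ℕ, N ≤ n → ∀ a : Fin n → ℕ, InClass k s d n a → Graphic n a}
      (threshold k s d) := by
  obtain ⟨h1, h2⟩ := threshold_main hs hsk hd hdk hne
  rw [threshold_eq hs hsk hd hdk]
  generalize ((k + s + 1) ^ 2 / 4 -
        (k - s + d) / (2 * d) * (k - s - (k - s + d) / (2 * d) * d) - 2) / s = m at h1 h2 ⊢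
  constructor
  · intro n hn a ha
    exact h1 n (by exact_mod_cast hn) a ha
  · intro N hN
    have h3 := h2 (show N.toNat ∈ _ from fun n hn a ha => hN n (by omega) a ha)
    omega

end Pool.Agent.H28.EG
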