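import Pool.Agent.H28.EG.Upper

set_option autoImplicit false

namespace Pool.Agent.H28.EG

open Finset

/-- building members of the class from functions on `ℕ` -/
theorem inClass_of {k s d n : ℕ} (f : ℕ → ℕ) (hn : 1 ≤ n) (h0 : f 0 = k) (hl : f (n - 1) = s)
    (hanti : ∀ i, i + 1 < n → f (i + 1) ≤ f i) (hgap : ∀ i, i + 1 < n → f i ≤ f (i + 1) + d)
    (heven : Even (∑ i ∈ range n, f i)) : InClass k s d n (fun i => f i.val) := by
  have hanti' : ∀ i j, i ≤ j → j < n → f j ≤ f i := by
    intro i j hij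
    induction j, hij using Nat.le_induction with
    | base => intro _; exact le_rfl
    | succ j hij ih =>
      intro hj
      exact (hanti j hj).trans (ih (by omega))
  refine ⟨fun i j hij => hanti' _ _ hij j.2, fun i => ?_, ⟨⟨0, hn⟩, h0⟩, fun i => ?_,
    ⟨⟨n - 1, by omega⟩, hl⟩, ?_, fun i j hij => ?_⟩
  · rw [← h0]; exact hanti' _ _ (Nat.zero_le _) i.2
  · rw [← hl]; exact hanti' _ _ (by have := i.2; omega) (by omega)
  · rw [Fin.sum_univ_eq_sum_range (fun i => f i) n]; exact heven
  · simp only [hij]; exact hgap i.val (by have := j.2; omega)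

/-- arithmetic progressions -/
theorem two_sum_AP (A d : ℤ) (κ : ℕ) :
    2 * ∑ t ∈ range κ, (A - d * t) = 2 * κ * A - d * κ * (κ - 1) := by
  induction κ with
  | zero => simp
  | succ κ ih => rw [sum_range_succ, mul_add, ih]; push_cast; ring

/-- the basic extremal list (before the parity correction) -/
def ext (k s d c : ℕ) (i : ℕ) : ℕ := min k (s + d * (c - i))

/-- main estimate for the extremal list -/
theorem ext_loss {k s d κ β r n : ℕ} (hsk : s < k) (hκr : κ ≤ r) (hrn : r + β ≤ n)
    (h1 : (β + κ) * d ≤ k - s) (h2 : k - s ≤ (β + κ + 1) * d) (hβ : β = κ ∨ β + 1 = κ) :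
    (r : ℤ) * (k + s + 1 - r) - s * n - κ * (k - s - κ * d) ≤
      ∑ i ∈ range r, (ext k s d (r + β) i : ℤ) - r * (r - 1) - ∑ i ∈ Ico r n, (ext k s d (r + β) i : ℤ) := by
  have hL : ((k - s : ℕ) : ℤ) = (k : ℤ) - s := by rw [Nat.cast_sub hsk.le]
  have h1' : ((β : ℤ) + κ) * d ≤ (k : ℤ) - s := by rw [← hL]; exact_mod_cast h1
  have h2' : (k : ℤ) - s ≤ ((β : ℤ) + κ + 1) * d := by rw [← hL]; exact_mod_cast h2
  have hd0 : (0 : ℤ) ≤ d := Int.natCast_nonneg _
  -- top part
  have hT : 2 * ∑ i ∈ range r, ((k : ℤ) - ext k s d (r + β) i) ≤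
      2 * κ * (k - s - d * (β + 1)) - d * κ * (κ - 1) := by
    rw [← sum_range_reflect, ← two_sum_AP]
    apply mul_le_mul_of_nonneg_left _ (by norm_num)
    obtain ⟨w, rfl⟩ : ∃ w, r = κ + w := ⟨r - κ, by omega⟩
    rw [sum_range_add]
    have hz : ∑ x ∈ range w, ((k : ℤ) - ext k s d (κ + w + β) (κ + w - 1 - (κ + x))) ≤ 0 := by
      apply sum_nonpos
      intro x hx
      rw [mem_range] at hx
      have e : κ + w + β - (κ + w - 1 - (κ + x)) = β + κ + 1 + x := by omega
      unfold ext
      rw [e]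
      have : k ≤ s + d * (β + κ + 1 + x) := by
        have h3 : (β + κ + 1) * d ≤ d * (β + κ + 1 + x) := by
          rw [mul_comm]; exact Nat.mul_le_mul_left _ (by omega)
        omega
      rw [min_eq_left this]; simp
    have hy : ∑ x ∈ range κ, ((k : ℤ) - ext k s d (κ + w + β) (κ + w - 1 - x)) ≤
        ∑ t ∈ range κ, ((k : ℤ) - s - d * (β + 1) - d * t) := by
      apply sum_le_sum
      intro x hx
      rw [mem_range] at hx
      have e : κ + w + β - (κ + w - 1 - x) = β + 1 + x := by omega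
      unfold ext
      rw [e]
      have h4 : s + d * (β + 1 + x) ≤ k := by
        have h5 : d * (β + 1 + x) ≤ (β + κ) * d := by
          rw [mul_comm (β + κ)]; exact Nat.mul_le_mul_left _ (by omega)
        omega
      rw [min_eq_right h4]
      push_cast
      linarith
    linarith
  -- bottom part
  have hB : 2 * ∑ i ∈ Ico r n, ((ext k s d (r + β) i : ℤ) - s) ≤ d * β * (β + 1) := by
    rw [← sum_Ico_consecutive _ (by omega : r ≤ r + β) hrn]
    have hz : ∑ i ∈ Ico (r + β) n, ((ext k s d (r + β) i : ℤ) - s) = 0 := by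
      apply sum_eq_zero
      intro i hi
      rw [mem_Ico] at hi
      unfold ext
      rw [show r + β - i = 0 by omega, mul_zero, add_zero, min_eq_right hsk.le, sub_self]
    rw [hz, add_zero, sum_Ico_eq_sum_range, show r + β - r = β by omega]
    have hy : ∑ x ∈ range β, ((ext k s d (r + β) (r + x) : ℤ) - s) ≤ ∑ t ∈ range β, ((d : ℤ) * β - d * t) := by
      apply sum_le_sum
      intro x hx
      rw [mem_range] at hx
      have e : r + β - (r + x) = β - x := by omega
      unfold ext
      rw [e]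
      have h4 : ((min k (s + d * (β - x)) : ℕ) : ℤ) ≤ ((s + d * (β - x) : ℕ) : ℤ) := by
        exact_mod_cast min_le_right _ _
      have h5 : ((s + d * (β - x) : ℕ) : ℤ) = s + d * β - d * x := by
        push_cast [Nat.cast_sub hx.le]; ring
      linarith
    have h6 := two_sum_AP ((d : ℤ) * β) d β
    have h7 := mul_le_mul_of_nonneg_left hy (show (0 : ℤ) ≤ 2 by norm_num)
    rw [h6] at h7
    calc _ ≤ _ := h7
      _ = d * β * (β + 1) := by ring
  rw [sum_sub_distrib] at hT hB
  simp only [sum_const, card_range, nsmul_eq_mul, Nat.card_Ico] at hT hB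
  rw [Nat.cast_sub (by omega : r ≤ n)] at hB
  rcases hβ with hβ | hβ
  · rw [hβ] at hT hB ⊢
    nlinarith
  · have hβ' : (β : ℤ) = κ - 1 := by rw [← hβ]; push_cast; ring
    rw [hβ'] at hT hB
    nlinarith

end Pool.Agent.H28.EG
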