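import Pool.Agent.H28.EG.Step

set_option autoImplicit false

namespace Pool.Agent.H28.EG

open Finset

variable {n : ℕ}

/-- the `r`-th Erdős–Gallai inequality (`r` = number of top vertices) -/
def EGIneq (d : Fin n → ℕ) (r : ℕ) : Prop :=
  ∑ i ∈ univ.filter (fun i : Fin n => i.val < r), d i ≤
    r * (r - 1) + ∑ i ∈ univ.filter (fun i : Fin n => r ≤ i.val), min r (d i)

theorem stage {d : Fin n → ℕ} (hd : Antitone d) (heven : Even (∑ i, d i)) {r : Fin n}
    (hEG : EGIneq d (r.val + 1)) {G : SimpleGraph (Fin n)} (hF : Fam d r G) :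
    ∃ G', Fam d r G' ∧ deg G' r = d r := by
  have hEG' : ∑ i ∈ univ.filter (fun i => i ≤ r), d i ≤
      (r.val + 1) * r.val + ∑ k ∈ univ.filter (fun k => r < k), min (r.val + 1) (d k) := by
    unfold EGIneq at hEG
    have e1 : (univ.filter (fun i : Fin n => i.val < r.val + 1)) = univ.filter (fun i => i ≤ r) := by
      ext i; simp only [mem_filter, mem_univ, true_and, Fin.le_def]; omega
    have e2 : (univ.filter (fun i : Fin n => r.val + 1 ≤ i.val)) = univ.filter (fun i => r < i) := by
      ext i; simp only [mem_filter, mem_univ, true_and, Fin.lt_def]; omega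
    rw [e1, e2] at hEG
    simpa using hEG
  have key : ∀ t : ℕ, t ≤ d r → ∃ G', Fam d r G' ∧ t ≤ deg G' r := by
    intro t
    induction t with
    | zero => intro _; exact ⟨G, hF, Nat.zero_le _⟩
    | succ t ih =>
      intro ht
      obtain ⟨G', hF', hle⟩ := ih (by omega)
      by_cases h : t + 1 ≤ deg G' r
      · exact ⟨G', hF', h⟩
      · have hlt : deg G' r < d r := by omega
        obtain ⟨G'', hF'', hlt'⟩ := step hd heven hEG' hF' hlt
        exact ⟨G'', hF'', by omega⟩
  obtain ⟨G', hF', hle⟩ := key (d r) le_rfl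
  exact ⟨G', hF', le_antisymm (hF'.le r) hle⟩

/-- **Erdős–Gallai, sufficiency.** -/
theorem exists_graph {d : Fin n → ℕ} (hd : Antitone d) (heven : Even (∑ i, d i))
    (hEG : ∀ r, 1 ≤ r → r ≤ n → EGIneq d r) : ∃ G : SimpleGraph (Fin n), ∀ i, deg G i = d i := by
  have key : ∀ r : ℕ, r ≤ n → ∃ G : SimpleGraph (Fin n), (∀ i : Fin n, i.val < r → deg G i = d i) ∧
      (∀ i, deg G i ≤ d i) ∧ (∀ i j : Fin n, r ≤ i.val → r ≤ j.val → ¬ G.Adj i j) := by
    intro r
    induction r with
    | zero =>
      intro _
      refine ⟨⊥, fun i hi => absurd hi (Nat.not_lt_zero _), fun i => ?_, fun i j _ _ => ?_⟩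
      · unfold deg; simp
      · simp
    | succ r ih =>
      intro hr
      obtain ⟨G, h1, h2, h3⟩ := ih (by omega)
      have hF : Fam d ⟨r, hr⟩ G := by
        refine ⟨fun i hi => h1 i hi, h2, fun i j hi hj => h3 i j ?_ ?_⟩
        · exact le_of_lt hi
        · exact le_of_lt hj
      obtain ⟨G', hF', hdeg⟩ := stage hd heven (hEG (r + 1) (by omega) hr) hF
      refine ⟨G', fun i hi => ?_, hF'.le, fun i j hi hj => hF'.indep i j ?_ ?_⟩
      · rcases Nat.lt_succ_iff_lt_or_eq.mp hi with h | h
        · exact hF'.top i h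
        · have : i = ⟨r, hr⟩ := Fin.ext h
          rw [this]; exact hdeg
      · exact hi
      · exact hj
  obtain ⟨G, h1, -, -⟩ := key n le_rfl
  exact ⟨G, fun i => h1 i i.2⟩

/-- **Erdős–Gallai, necessity.** -/
theorem ineq_of_graph (G : SimpleGraph (Fin n)) (r : ℕ) (hr : r ≤ n) : EGIneq (deg G) r := by
  classical
  unfold EGIneq
  have hdeg : ∀ i, deg G i = ∑ j, if G.Adj i j then 1 else 0 := by
    intro i
    unfold deg
    rw [Set.ncard_eq_toFinset_card', card_eq_sum_ones, sum_ite, sum_const_zero, add_zero]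
    apply sum_congr
    · ext j; simp
    · intros; rfl
  have hcard : (univ.filter (fun i : Fin n => i.val < r)).card = r := by
    rw [Fin.card_filter_val_lt]; omega
  have split : ∀ f : Fin n → ℕ, ∑ j, f j =
      ∑ j ∈ univ.filter (fun j : Fin n => j.val < r), f j +
      ∑ j ∈ univ.filter (fun j : Fin n => r ≤ j.val), f j := by
    intro f
    rw [← sum_filter_add_sum_filter_not univ (fun j : Fin n => j.val < r)]
    congr 1
    apply sum_congr
    · ext j; simp
    · intros; rfl
  have h1 : ∑ i ∈ univ.filter (fun i : Fin n => i.val < r), deg G i ≤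
      ∑ i ∈ univ.filter (fun i : Fin n => i.val < r),
        ((r - 1) + ∑ j ∈ univ.filter (fun j : Fin n => r ≤ j.val), if G.Adj i j then 1 else 0) := by
    apply sum_le_sum
    intro i hi
    rw [mem_filter] at hi
    rw [hdeg, split]
    apply Nat.add_le_add_right
    calc ∑ j ∈ univ.filter (fun j : Fin n => j.val < r), (if G.Adj i j then 1 else 0)
        ≤ ∑ j ∈ (univ.filter (fun j : Fin n => j.val < r)).erase i, 1 := by
          rw [← add_sum_erase _ _ (show i ∈ univ.filter (fun j : Fin n => j.val < r) by simp [hi.2])]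
          rw [if_neg (G.irrefl), zero_add]
          apply sum_le_sum
          intro j _
          split_ifs <;> omega
      _ = r - 1 := by
          rw [sum_const, smul_eq_mul, mul_one, card_erase_of_mem (by simp [hi.2]), hcard]
  refine h1.trans ?_
  rw [sum_add_distrib, sum_const, hcard, smul_eq_mul, sum_comm]
  apply Nat.add_le_add_left
  apply sum_le_sum
  intro k _
  apply le_min
  · calc ∑ i ∈ univ.filter (fun i : Fin n => i.val < r), (if G.Adj i k then 1 else 0)
        ≤ ∑ i ∈ univ.filter (fun i : Fin n => i.val < r), 1 := by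
          apply sum_le_sum; intro i _; split_ifs <;> omega
      _ = r := by rw [sum_const, hcard, smul_eq_mul, mul_one]
  · rw [hdeg]
    calc ∑ i ∈ univ.filter (fun i : Fin n => i.val < r), (if G.Adj i k then 1 else 0)
        = ∑ i ∈ univ.filter (fun i : Fin n => i.val < r), (if G.Adj k i then 1 else 0) := by
          apply sum_congr rfl; intro i _; simp only [G.adj_comm]
      _ ≤ ∑ i, (if G.Adj k i then 1 else 0) := by
          apply sum_le_sum_of_subset; simp

end Pool.Agent.H28.EG
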