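import Pool.Agent.H28.EG.Basic

set_option autoImplicit false

namespace Pool.Agent.H28.EG

open Finset

variable {n : ℕ}

/-- graphs saturated on the vertices before `r`, never over-full, and independent after `r` -/
structure Fam (d : Fin n → ℕ) (r : Fin n) (G : SimpleGraph (Fin n)) : Prop where
  top : ∀ i, i < r → deg G i = d i
  le : ∀ i, deg G i ≤ d i
  indep : ∀ i j, r < i → r < j → ¬ G.Adj i j

/-- the sum identity when the first `r+1` vertices form a clique and the rest is independent -/
theorem sum_top (G : SimpleGraph (Fin n)) (r : Fin n)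
    (hcl : ∀ i j, i ≤ r → j ≤ r → i ≠ j → G.Adj i j)
    (hind : ∀ i j, r < i → r < j → ¬ G.Adj i j) :
    ∑ i ∈ univ.filter (fun i => i ≤ r), deg G i =
      (r.val + 1) * r.val + ∑ k ∈ univ.filter (fun k => r < k), deg G k := by
  classical
  have hdeg : ∀ i, deg G i = ∑ j, if G.Adj i j then 1 else 0 := by
    intro i
    unfold deg
    rw [Set.ncard_eq_toFinset_card', card_eq_sum_ones, sum_ite, sum_const_zero, add_zero]
    apply sum_congr
    · ext j; simp
    · intros; rfl
  have hcardle : (univ.filter (fun i : Fin n => i ≤ r)).card = r.val + 1 := by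
    have : (univ.filter (fun i : Fin n => i ≤ r)) = Finset.Iic r := by ext; simp
    rw [this, Fin.card_Iic]
  have split : ∀ f : Fin n → ℕ, ∑ j, f j =
      ∑ j ∈ univ.filter (fun j => j ≤ r), f j + ∑ j ∈ univ.filter (fun j => r < j), f j := by
    intro f
    rw [← sum_filter_add_sum_filter_not univ (fun j => j ≤ r)]
    congr 1
    apply sum_congr
    · ext j; simp
    · intros; rfl
  have h1 : ∑ i ∈ univ.filter (fun i => i ≤ r), deg G i =
      ∑ i ∈ univ.filter (fun i => i ≤ r), (r.val + ∑ j ∈ univ.filter (fun j => r < j), if G.Adj i j then 1 else 0) := by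
    apply sum_congr rfl
    intro i hi
    rw [mem_filter] at hi
    rw [hdeg, split]
    congr 1
    have : ∑ j ∈ univ.filter (fun j => j ≤ r), (if G.Adj i j then 1 else 0) =
        ∑ j ∈ (univ.filter (fun j => j ≤ r)).erase i, 1 := by
      rw [← add_sum_erase _ _ (show i ∈ univ.filter (fun j => j ≤ r) by simp [hi.2])]
      rw [if_neg (G.irrefl), zero_add]
      apply sum_congr rfl
      intro j hj
      rw [mem_erase, mem_filter] at hj
      rw [if_pos (hcl i j hi.2 hj.2.2 (Ne.symm hj.1))]
    rw [this, sum_const, smul_eq_mul, mul_one, card_erase_of_mem (by simp [hi.2]), hcardle]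
    omega
  have h2 : ∑ k ∈ univ.filter (fun k => r < k), deg G k =
      ∑ k ∈ univ.filter (fun k => r < k), ∑ i ∈ univ.filter (fun i => i ≤ r), if G.Adj i k then 1 else 0 := by
    apply sum_congr rfl
    intro k hk
    rw [mem_filter] at hk
    rw [hdeg, split]
    have : ∑ j ∈ univ.filter (fun j => r < j), (if G.Adj k j then 1 else 0) = 0 := by
      apply sum_eq_zero
      intro j hj
      rw [mem_filter] at hj
      rw [if_neg (hind k j hk.2 hj.2)]
    rw [this, add_zero]
    apply sum_congr rfl
    intro i _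
    simp only [G.adj_comm]
  rw [h1, h2, sum_add_distrib, sum_const, hcardle, smul_eq_mul, sum_comm]

/-- one improvement step -/
theorem step {d : Fin n → ℕ} (hd : Antitone d) (heven : Even (∑ i, d i)) {r : Fin n}
    (hEG : ∑ i ∈ univ.filter (fun i => i ≤ r), d i ≤
      (r.val + 1) * r.val + ∑ k ∈ univ.filter (fun k => r < k), min (r.val + 1) (d k))
    {G : SimpleGraph (Fin n)} (hF : Fam d r G) (hlt : deg G r < d r) :
    ∃ G', Fam d r G' ∧ deg G r < deg G' r := by
  classical
  -- Case 0
  by_cases h0 : ∃ k, r < k ∧ ¬ G.Adj r k ∧ deg G k < d k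
  · obtain ⟨k, hk, hnk, hdk⟩ := h0
    have hne : r ≠ k := ne_of_lt hk
    have hdeg := deg_add G hne hnk
    refine ⟨G ⊔ SimpleGraph.edge r k, ⟨?_, ?_, ?_⟩, ?_⟩
    · intro i hi
      rw [hdeg, ind_ne (ne_of_lt hi), ind_ne (ne_of_lt (hi.trans hk))]
      simpa using hF.top i hi
    · intro i
      rw [hdeg]
      by_cases hir : i = r
      · subst hir; rw [ind_self, ind_ne hne]; omega
      · by_cases hik : i = k
        · subst hik; rw [ind_self, ind_ne hir]; omega
        · rw [ind_ne hir, ind_ne hik]; simpa using hF.le i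
    · intro i j hi hj
      rw [adj_add]
      rintro (h | ⟨⟨h1, h2⟩ | ⟨h1, h2⟩, h3⟩)
      · exact hF.indep i j hi hj h
      · exact absurd hi (by rw [h1]; exact lt_irrefl _)
      · exact absurd hj (by rw [h2]; exact lt_irrefl _)
    · rw [hdeg, ind_self]; omega
  push Not at h0
  -- h0 : ∀ k > r, ¬ Adj r k → d k ≤ deg k
  have hN0 : ∀ k, r < k → deg G k < d k → G.Adj r k := by
    intro k hk hdk
    by_contra hn
    exact absurd (h0 k hk hn) (by omega)
  -- Case 1
  by_cases h1 : ∃ i, i < r ∧ ¬ G.Adj r i
  · obtain ⟨i, hi, hni⟩ := h1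
    have hdi : deg G r < deg G i := by
      rw [hF.top i hi]; exact lt_of_lt_of_le hlt (hd hi.le)
    obtain ⟨u, hiu, hru, hur⟩ := exists_nbr hdi
    have hir : i ≠ r := ne_of_lt hi
    have hiu' : i ≠ u := G.ne_of_adj hiu
    by_cases hdef : deg G r + 2 ≤ d r
    · -- replace iu by ur, ir
      have d1 := deg_del G hiu
      set G1 := G \ SimpleGraph.edge i u with hG1
      have a1 : ¬ G1.Adj u r := by
        rw [hG1, adj_del]; exact fun h => hru (G.adj_symm h.1)
      have d2 := deg_add G1 hur a1
      set G2 := G1 ⊔ SimpleGraph.edge u r with hG2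
      have a2 : ¬ G2.Adj i r := by
        rw [hG2, adj_add, hG1, adj_del]
        rintro (h | ⟨⟨h1, h2⟩ | ⟨h1, h2⟩, h3⟩)
        · exact hni (G.adj_symm h.1)
        · exact hiu' h1
        · exact hir h1
      have d3 := deg_add G2 hir a2
      set G3 := G2 ⊔ SimpleGraph.edge i r with hG3
      have key : ∀ z, deg G3 z = deg G z + 2 * ind z r := by
        intro z
        have e1 := d1 z; have e2 := d2 z; have e3 := d3 z
        omega
      refine ⟨G3, ⟨?_, ?_, ?_⟩, ?_⟩
      · intro z hz
        rw [key, ind_ne (ne_of_lt hz)]; simpa using hF.top z hz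
      · intro z
        rw [key]
        by_cases hzr : z = r
        · subst hzr; rw [ind_self]; omega
        · rw [ind_ne hzr]; simpa using hF.le z
      · intro a b ha hb
        rw [hG3, adj_add, hG2, adj_add, hG1, adj_del]
        rintro ((h | ⟨⟨h1, h2⟩ | ⟨h1, h2⟩, h3⟩) | ⟨⟨h1, h2⟩ | ⟨h1, h2⟩, h3⟩)
        · exact hF.indep a b ha hb h.1
        · exact absurd hb (by rw [h2]; exact lt_irrefl _)
        · exact absurd ha (by rw [h1]; exact lt_irrefl _)
        · exact absurd hb (by rw [h2]; exact lt_irrefl _)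
        · exact absurd ha (by rw [h1]; exact lt_irrefl _)
      · rw [key, ind_self]; omega
    · -- deficiency one: parity
      have hdef1 : deg G r + 1 = d r := by omega
      have hk : ∃ k, r < k ∧ deg G k < d k := by
        by_contra hcon
        push Not at hcon
        have hall : ∀ k, d k = deg G k + ind k r := by
          intro k
          rcases lt_trichotomy k r with h | h | h
          · rw [ind_ne (ne_of_lt h), hF.top k h, add_zero]
          · subst h; rw [ind_self]; exact hdef1.symm
          · rw [ind_ne (ne_of_gt h)]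
            have := hcon k h; have := hF.le k; omega
        have hs : ∑ k, d k = ∑ k, deg G k + 1 := by
          rw [sum_congr rfl (fun k _ => hall k), sum_add_distrib]
          congr 1
          simp [ind]
        have := even_sum_deg G
        rw [hs] at heven
        rcases heven with ⟨a, ha⟩
        rcases this with ⟨b, hb⟩
        omega
      obtain ⟨k, hrk, hdk⟩ := hk
      have hadj := hN0 k hrk hdk
      have huk : u ≠ k := fun h => hru (h ▸ hadj)
      have hik : i ≠ k := ne_of_lt (hi.trans hrk)
      -- remove rk, iu; add ur, ir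
      have d0 := deg_del G hadj
      set G0 := G \ SimpleGraph.edge r k with hG0
      have b0 : G0.Adj i u := by
        rw [hG0, adj_del]
        refine ⟨hiu, ?_⟩
        rintro (⟨h1, h2⟩ | ⟨h1, h2⟩)
        · exact hir h1
        · exact hik h1
      have d1 := deg_del G0 b0
      set G1 := G0 \ SimpleGraph.edge i u with hG1
      have a1 : ¬ G1.Adj u r := by
        rw [hG1, adj_del, hG0, adj_del]; exact fun h => hru (G.adj_symm h.1.1)
      have d2 := deg_add G1 hur a1
      set G2 := G1 ⊔ SimpleGraph.edge u r with hG2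
      have a2 : ¬ G2.Adj i r := by
        rw [hG2, adj_add, hG1, adj_del, hG0, adj_del]
        rintro (h | ⟨⟨h1, h2⟩ | ⟨h1, h2⟩, h3⟩)
        · exact hni (G.adj_symm h.1.1)
        · exact hiu' h1
        · exact hir h1
      have d3 := deg_add G2 hir a2
      set G3 := G2 ⊔ SimpleGraph.edge i r with hG3
      have key : ∀ z, deg G3 z + ind z k = deg G z + ind z r := by
        intro z
        have e0 := d0 z; have e1 := d1 z; have e2 := d2 z; have e3 := d3 z
        omega
      refine ⟨G3, ⟨?_, ?_, ?_⟩, ?_⟩
      · intro z hz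
        have := key z
        rw [ind_ne (ne_of_lt hz), ind_ne (ne_of_lt (hz.trans hrk))] at this
        rw [← hF.top z hz]; simpa using this
      · intro z
        have h5 := key z
        by_cases hzr : z = r
        · subst hzr; rw [ind_self] at h5; omega
        · rw [ind_ne hzr] at h5
          have := hF.le z
          omega
      · intro a b ha hb
        rw [hG3, adj_add, hG2, adj_add, hG1, adj_del, hG0, adj_del]
        rintro ((h | ⟨⟨h1, h2⟩ | ⟨h1, h2⟩, h3⟩) | ⟨⟨h1, h2⟩ | ⟨h1, h2⟩, h3⟩)
        · exact hF.indep a b ha hb h.1.1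
        · exact absurd hb (by rw [h2]; exact lt_irrefl _)
        · exact absurd ha (by rw [h1]; exact lt_irrefl _)
        · exact absurd hb (by rw [h2]; exact lt_irrefl _)
        · exact absurd ha (by rw [h1]; exact lt_irrefl _)
      · have h5 := key r
        rw [ind_self, ind_ne (ne_of_lt hrk)] at h5
        omega
  push Not at h1
  -- Case 2
  by_cases h2 : ∃ k, r < k ∧ deg G k < min (r.val + 1) (d k)
  · obtain ⟨k, hrk, hdk⟩ := h2
    have hdk1 : deg G k < d k := lt_of_lt_of_le hdk (min_le_right _ _)
    have hdk2 : deg G k < r.val + 1 := lt_of_lt_of_le hdk (min_le_left _ _)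
    have hadj := hN0 k hrk hdk1
    have hi : ∃ i, i ≤ r ∧ ¬ G.Adj k i := by
      by_contra hcon
      push Not at hcon
      have hsub : (Set.Iic r : Set (Fin n)) ⊆ G.neighborSet k := fun i hi => hcon i hi
      have hc := Set.ncard_le_ncard hsub (Set.toFinite _)
      rw [Set.ncard_eq_toFinset_card', Set.toFinset_Iic, Fin.card_Iic] at hc
      unfold deg at hdk2
      omega
    obtain ⟨i, hir, hnki⟩ := hi
    have hine : i ≠ r := fun h => hnki (h ▸ G.adj_symm hadj)
    have hi : i < r := lt_of_le_of_ne hir hine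
    have hdi : deg G r < deg G i := by
      rw [hF.top i hi]; exact lt_of_lt_of_le hlt (hd hi.le)
    obtain ⟨u, hiu, hru, hur⟩ := exists_nbr hdi
    have hiu' : i ≠ u := G.ne_of_adj hiu
    have huk : u ≠ k := fun h => hnki (G.adj_symm (h ▸ hiu))
    have hik : i ≠ k := ne_of_lt (hi.trans hrk)
    -- remove iu; add ur, ik
    have d1 := deg_del G hiu
    set G1 := G \ SimpleGraph.edge i u with hG1
    have a1 : ¬ G1.Adj u r := by
      rw [hG1, adj_del]; exact fun h => hru (G.adj_symm h.1)
    have d2 := deg_add G1 hur a1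
    set G2 := G1 ⊔ SimpleGraph.edge u r with hG2
    have a2 : ¬ G2.Adj i k := by
      rw [hG2, adj_add, hG1, adj_del]
      rintro (h | ⟨⟨h1, h2⟩ | ⟨h1, h2⟩, h3⟩)
      · exact hnki (G.adj_symm h.1)
      · exact hiu' h1
      · exact hine h1
    have d3 := deg_add G2 hik a2
    set G3 := G2 ⊔ SimpleGraph.edge i k with hG3
    have key : ∀ z, deg G3 z = deg G z + ind z r + ind z k := by
      intro z
      have e1 := d1 z; have e2 := d2 z; have e3 := d3 z
      omega
    refine ⟨G3, ⟨?_, ?_, ?_⟩, ?_⟩
    · intro z hz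
      rw [key, ind_ne (ne_of_lt hz), ind_ne (ne_of_lt (hz.trans hrk))]; simpa using hF.top z hz
    · intro z
      rw [key]
      by_cases hzr : z = r
      · subst hzr; rw [ind_self, ind_ne (ne_of_lt hrk)]; omega
      · by_cases hzk : z = k
        · subst hzk; rw [ind_self, ind_ne hzr]; omega
        · rw [ind_ne hzr, ind_ne hzk]; simpa using hF.le z
    · intro a b ha hb
      rw [hG3, adj_add, hG2, adj_add, hG1, adj_del]
      rintro ((h | ⟨⟨h1, h2⟩ | ⟨h1, h2⟩, h3⟩) | ⟨⟨h1, h2⟩ | ⟨h1, h2⟩, h3⟩)
      · exact hF.indep a b ha hb h.1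
      · exact absurd hb (by rw [h2]; exact lt_irrefl _)
      · exact absurd ha (by rw [h1]; exact lt_irrefl _)
      · exact absurd ha (by rw [h1]; exact hi.not_gt)
      · exact absurd hb (by rw [h2]; exact hi.not_gt)
    · rw [key, ind_self]; omega
  push Not at h2
  -- Case 3
  by_cases h3 : ∃ i j, i < r ∧ j < r ∧ i ≠ j ∧ ¬ G.Adj i j
  · obtain ⟨i, j, hi, hj, hij, hnij⟩ := h3
    have hdi : deg G r < deg G i := by
      rw [hF.top i hi]; exact lt_of_lt_of_le hlt (hd hi.le)
    have hdj : deg G r < deg G j := by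
      rw [hF.top j hj]; exact lt_of_lt_of_le hlt (hd hj.le)
    obtain ⟨u, hiu, hru, hur⟩ := exists_nbr hdi
    obtain ⟨w, hjw, hrw, hwr⟩ := exists_nbr hdj
    have hw : r < w := by
      rcases lt_trichotomy w r with h | h | h
      · exact absurd (h1 w h) hrw
      · exact absurd h hwr
      · exact h
    have hir : i ≠ r := ne_of_lt hi
    have hiu' : i ≠ u := G.ne_of_adj hiu
    have huj : u ≠ j := fun h => hnij (h ▸ hiu)
    have hiw : i ≠ w := ne_of_lt (hi.trans hw)
    -- remove iu, jw; add ij, ur
    have d0 := deg_del G hiu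
    set G0 := G \ SimpleGraph.edge i u with hG0
    have b0 : G0.Adj j w := by
      rw [hG0, adj_del]
      refine ⟨hjw, ?_⟩
      rintro (⟨h1, h2⟩ | ⟨h1, h2⟩)
      · exact hij h1.symm
      · exact huj h1.symm
    have d1 := deg_del G0 b0
    set G1 := G0 \ SimpleGraph.edge j w with hG1
    have a1 : ¬ G1.Adj i j := by
      rw [hG1, adj_del, hG0, adj_del]; exact fun h => hnij h.1.1
    have d2 := deg_add G1 hij a1
    set G2 := G1 ⊔ SimpleGraph.edge i j with hG2
    have a2 : ¬ G2.Adj u r := by
      rw [hG2, adj_add, hG1, adj_del, hG0, adj_del]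
      rintro (h | ⟨⟨h1, h2⟩ | ⟨h1, h2⟩, h3⟩)
      · exact hru (G.adj_symm h.1.1)
      · exact hiu' h1.symm
      · exact huj h1
    have d3 := deg_add G2 hur a2
    set G3 := G2 ⊔ SimpleGraph.edge u r with hG3
    have key : ∀ z, deg G3 z + ind z w = deg G z + ind z r := by
      intro z
      have e0 := d0 z; have e1 := d1 z; have e2 := d2 z; have e3 := d3 z
      omega
    refine ⟨G3, ⟨?_, ?_, ?_⟩, ?_⟩
    · intro z hz
      have := key z
      rw [ind_ne (ne_of_lt hz), ind_ne (ne_of_lt (hz.trans hw))] at this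
      rw [← hF.top z hz]; simpa using this
    · intro z
      have h5 := key z
      by_cases hzr : z = r
      · subst hzr; rw [ind_self] at h5; omega
      · rw [ind_ne hzr] at h5
        have := hF.le z
        omega
    · intro a b ha hb
      rw [hG3, adj_add, hG2, adj_add, hG1, adj_del, hG0, adj_del]
      rintro ((h | ⟨⟨h1, h2⟩ | ⟨h1, h2⟩, h3⟩) | ⟨⟨h1, h2⟩ | ⟨h1, h2⟩, h3⟩)
      · exact hF.indep a b ha hb h.1.1
      · exact absurd ha (by rw [h1]; exact hi.not_gt)
      · exact absurd hb (by rw [h2]; exact hi.not_gt)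
      · exact absurd hb (by rw [h2]; exact lt_irrefl _)
      · exact absurd ha (by rw [h1]; exact lt_irrefl _)
    · have h5 := key r
      rw [ind_self, ind_ne (ne_of_lt hw)] at h5
      omega
  push Not at h3
  -- Case 4: contradiction with the inequality
  exfalso
  have hcl : ∀ i j, i ≤ r → j ≤ r → i ≠ j → G.Adj i j := by
    intro i j hi hj hij
    rcases hi.lt_or_eq with hi | hi
    · rcases hj.lt_or_eq with hj | hj
      · exact h3 i j hi hj hij
      · subst hj; exact G.adj_symm (h1 i hi)
    · subst hi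
      rcases hj.lt_or_eq with hj | hj
      · exact h1 j hj
      · exact absurd hj.symm hij
  have hs := sum_top G r hcl hF.indep
  have h4 : ∑ k ∈ univ.filter (fun k => r < k), min (r.val + 1) (d k) ≤
      ∑ k ∈ univ.filter (fun k => r < k), deg G k := by
    apply sum_le_sum
    intro k hk
    rw [mem_filter] at hk
    exact h2 k hk.2
  have h5 : ∑ i ∈ univ.filter (fun i => i ≤ r), deg G i < ∑ i ∈ univ.filter (fun i => i ≤ r), d i := by
    apply sum_lt_sum
    · intro i _; exact hF.le i
    · exact ⟨r, by simp, hlt⟩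
  omega

end Pool.Agent.H28.EG
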