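import Pool.Agent.H28.EG.Example

set_option autoImplicit false

namespace Pool.Agent.H28.EG

open Finset

/-- facts about `κ = ⌊(L+d)/(2d)⌋` -/
theorem kappa_facts {L d : ℕ} (hd : 1 ≤ d) (hdL : d ≤ L) :
    1 ≤ (L + d) / (2 * d) ∧ 2 * ((L + d) / (2 * d)) * d ≤ L + d ∧
      L < (2 * ((L + d) / (2 * d)) + 1) * d ∧ (L + d) / (2 * d) * d ≤ L ∧
      2 * ((L + d) / (2 * d)) ≤ L + 1 := by
  have h1 : 1 ≤ (L + d) / (2 * d) := by
    rw [Nat.le_div_iff_mul_le (by omega)]; omega
  have h2 : 2 * d * ((L + d) / (2 * d)) ≤ L + d := Nat.mul_div_le _ _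
  have h3 := Nat.lt_mul_div_succ (L + d) (show 0 < 2 * d by omega)
  set q := (L + d) / (2 * d) with hq
  have e1 : 2 * d * q = 2 * q * d := by ring
  have e2 : 2 * d * (q + 1) = (2 * q + 1) * d + d := by ring
  rw [e1] at h2
  rw [e2] at h3
  have e3 : 2 * (q * d) = 2 * q * d := by ring
  refine ⟨h1, h2, by omega, by omega, ?_⟩
  by_contra hcon
  push Not at hcon
  have h5 : (L + 2) * d ≤ 2 * q * d := Nat.mul_le_mul_right _ hcon
  have h6 : L ≤ L * d := Nat.le_mul_of_pos_right _ hd
  have h7 : (L + 2) * d = L * d + 2 * d := by ring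
  omega

theorem P_eq {k s : ℕ} (hsk : s < k) : (k + s + 1) ^ 2 / 4 = s * (k + 1) + (k - s + 1) ^ 2 / 4 := by
  obtain ⟨L, rfl⟩ : ∃ L, k = s + L := ⟨k - s, by omega⟩
  rw [Nat.add_sub_cancel_left, show (s + L + s + 1) ^ 2 = (L + 1) ^ 2 + 4 * (s * (s + L + 1)) by ring,
    Nat.add_mul_div_left _ _ (by norm_num), add_comm]

/-- the special list for `L = 1` -/
theorem example_one {k : ℕ} (hk : 3 ≤ k) : ∃ a : Fin k → ℕ, InClass k (k - 1) 1 k a ∧ ¬ Graphic k a := by
  let f : ℕ → ℕ := fun i => (k - 1) + (if i < 2 then 1 else 0)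
  have hsum : ∑ i ∈ range k, f i = k * (k - 1) + 2 := by
    show ∑ i ∈ range k, ((k - 1) + (if i < 2 then 1 else 0)) = _
    rw [sum_add_distrib, sum_const, card_range, smul_eq_mul, ← sum_filter, sum_const, smul_eq_mul, mul_one]
    congr 1
    rw [filter_lt k 2 (by omega), card_range]
  refine ⟨fun i => f i.val, inClass_of f (by omega) ?_ ?_ ?_ ?_ ?_, not_graphic_of_big f (by omega) ?_⟩
  · show (k - 1) + (if 0 < 2 then 1 else 0) = k
    simp; omega
  · show (k - 1) + (if k - 1 < 2 then 1 else 0) = k - 1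
    rw [if_neg (by omega)]
    omega
  · intro i _
    show (k - 1) + (if i + 1 < 2 then 1 else 0) ≤ (k - 1) + (if i < 2 then 1 else 0)
    split_ifs <;> omega
  · intro i _
    show (k - 1) + (if i < 2 then 1 else 0) ≤ (k - 1) + (if i + 1 < 2 then 1 else 0) + 1
    split_ifs <;> omega
  · rw [hsum]
    have : Even (k * (k - 1)) := Nat.even_mul_pred_self k
    exact this.add even_two
  · show k ≤ (k - 1) + (if 0 < 2 then 1 else 0)
    simp; omega

/-- the special list for `L = 2`, `d = 1` -/
theorem example_two {k : ℕ} (hk : 3 ≤ k) : ∃ a : Fin k → ℕ, InClass k (k - 2) 1 k a ∧ ¬ Graphic k a := by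
  obtain ⟨β, hβ1, hβ2, hβ3⟩ : ∃ β, 1 ≤ β ∧ β + 2 ≤ k ∧ Even (k + β) := by
    rcases Nat.even_or_odd k with h | h
    · refine ⟨2, by omega, ?_, h.add even_two⟩
      rcases h with ⟨t, ht⟩
      omega
    · exact ⟨1, by omega, by omega, h.add_odd odd_one⟩
  let f : ℕ → ℕ := fun i => (k - 2) + ((if i < 1 + β then 1 else 0) + (if i < 1 then 1 else 0))
  have hsum : ∑ i ∈ range k, f i = k * (k - 2) + ((1 + β) + 1) := by
    show ∑ i ∈ range k, ((k - 2) + ((if i < 1 + β then 1 else 0) + (if i < 1 then 1 else 0))) = _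
    rw [sum_add_distrib, sum_const, card_range, smul_eq_mul, sum_add_distrib, ← sum_filter, ← sum_filter,
      sum_const, sum_const, smul_eq_mul, mul_one, smul_eq_mul, mul_one, filter_lt k 1 (by omega),
      filter_lt k (1 + β) (by omega), card_range, card_range]
  refine ⟨fun i => f i.val, inClass_of f (by omega) ?_ ?_ ?_ ?_ ?_, not_graphic_of_big f (by omega) ?_⟩
  · show (k - 2) + ((if 0 < 1 + β then 1 else 0) + (if 0 < 1 then 1 else 0)) = k
    rw [if_pos (by omega), if_pos (by omega)]; omega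
  · show (k - 2) + ((if k - 1 < 1 + β then 1 else 0) + (if k - 1 < 1 then 1 else 0)) = k - 2
    rw [if_neg (by omega), if_neg (by omega)]
    omega
  · intro i _
    show (k - 2) + ((if i + 1 < 1 + β then 1 else 0) + (if i + 1 < 1 then 1 else 0)) ≤
      (k - 2) + ((if i < 1 + β then 1 else 0) + (if i < 1 then 1 else 0))
    split_ifs <;> omega
  · intro i _
    show (k - 2) + ((if i < 1 + β then 1 else 0) + (if i < 1 then 1 else 0)) ≤
      (k - 2) + ((if i + 1 < 1 + β then 1 else 0) + (if i + 1 < 1 then 1 else 0)) + 1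
    split_ifs <;> omega
  · rw [hsum]
    obtain ⟨t, rfl⟩ : ∃ t, k = t + 2 := ⟨k - 2, by omega⟩
    rw [Nat.add_sub_cancel]
    have h1 : (t + 2) * t + (1 + β + 1) = t * (t + 1) + (t + 2 + β) := by ring
    rw [h1]
    exact (Nat.even_mul_succ_self t).add hβ3
  · show k ≤ (k - 2) + ((if 0 < 1 + β then 1 else 0) + (if 0 < 1 then 1 else 0))
    rw [if_pos (by omega), if_pos (by omega)]; omega

/-- The threshold theorem, main case. -/
theorem threshold_main {k s d : ℕ} (hs : 1 ≤ s) (hsk : s < k) (hd : 1 ≤ d) (hdk : d ≤ k - s)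
    (hne : ¬ (k = 2 ∧ s = 1 ∧ d = 1)) :
    IsLeast {N : ℕ | ∀ n : ℕ, N ≤ n → ∀ a : Fin n → ℕ, InClass k s d n a → Graphic n a}
      (((k + s + 1) ^ 2 / 4 -
        (k - s + d) / (2 * d) * (k - s - (k - s + d) / (2 * d) * d) - 2) / s + 1) := by
  obtain ⟨hκ1, hκ2, hκ3, hκ4, hκ5⟩ := kappa_facts hd hdk
  set κ := (k - s + d) / (2 * d) with hκ
  set Λ := κ * (k - s - κ * d) with hΛ
  have hΛ1 : Λ + 1 ≤ (k - s + 1) ^ 2 / 4 := lam_le hd hκ1 hκ4
  have hP := P_eq hsk
  set P := (k + s + 1) ^ 2 / 4 with hPdef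
  have hΛZ : (Λ : ℤ) = κ * ((k : ℤ) - s - κ * d) := by
    rw [hΛ]; push_cast [Nat.cast_sub hκ4, Nat.cast_sub hsk.le]; ring
  set n0 := (P - Λ - 2) / s with hn0
  have hspos : 0 < s := hs
  have hsk1 : s * (k + 1) = s * k + s := by ring
  have hn0k : k ≤ n0 := by
    rw [hn0, Nat.le_div_iff_mul_le hspos, mul_comm]
    omega
  have hn0a : s * n0 ≤ P - Λ - 2 := Nat.mul_div_le _ _
  have hn0b : P - Λ - 2 < s * (n0 + 1) := Nat.lt_mul_div_succ _ hspos
  constructor
  · intro n hn a ha
    have hn' : s * (n0 + 1) ≤ s * n := Nat.mul_le_mul_left _ hn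
    apply graphic_of_long κ hs hsk hd ha (by omega)
    rw [← hΛZ]
    have : P ≤ s * n + Λ + 1 := by omega
    have h2 : (P : ℤ) ≤ s * n + Λ + 1 := by exact_mod_cast this
    linarith
  · intro N hN
    by_contra hcon
    push Not at hcon
    have hN' : N ≤ n0 := by omega
    -- a nongraphic list of length n0
    have hex : ∃ a : Fin n0 → ℕ, InClass k s d n0 a ∧ ¬ Graphic n0 a := by
      by_cases hsp : d = 1 ∧ k - s ≤ 2
      · obtain ⟨rfl, hL2⟩ := hsp
        have hk3 : 3 ≤ k := by
          by_contra h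
          exact hne ⟨by omega, by omega, rfl⟩
        rcases (show k - s = 1 ∨ k - s = 2 by omega) with hL | hL
        · have hκv : κ = 1 := by rw [hκ, hL]
          have hΛv : Λ = 0 := by rw [hΛ, hκv, hL]
          have hP2 : P = s * (k + 1) + 1 := by rw [hP, hL]; norm_num
          have hn0v : n0 = k := by
            apply le_antisymm _ hn0k
            rw [hn0, ← Nat.lt_succ_iff, Nat.div_lt_iff_lt_mul hspos]
            rw [Nat.succ_eq_add_one, mul_comm]
            omega
          rw [hn0v]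
          obtain ⟨a, h1, h2⟩ := example_one hk3
          have hsv : k - 1 = s := by omega
          rw [hsv] at h1
          exact ⟨a, h1, h2⟩
        · have hκv : κ = 1 := by rw [hκ, hL]
          have hΛv : Λ = 1 := by rw [hΛ, hκv, hL]
          have hP2 : P = s * (k + 1) + 2 := by rw [hP, hL]; norm_num
          have hn0v : n0 = k := by
            apply le_antisymm _ hn0k
            rw [hn0, ← Nat.lt_succ_iff, Nat.div_lt_iff_lt_mul hspos]
            rw [Nat.succ_eq_add_one, mul_comm]
            omega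
          rw [hn0v]
          obtain ⟨a, h1, h2⟩ := example_two hk3
          have hsv : k - 2 = s := by omega
          rw [hsv] at h1
          exact ⟨a, h1, h2⟩
      · have hΛ2 : Λ + 2 ≤ (k - s + 1) ^ 2 / 4 := lam_le' hd hκ1 hκ4 hκ2 hκ3 hsp
        have hn0k1 : k + 1 ≤ n0 := by
          rw [hn0, Nat.le_div_iff_mul_le hspos, mul_comm]
          omega
        -- choice of β and r
        have hrv : P = (k + s + 1 + 1) / 2 * (k + s + 1 - (k + s + 1 + 1) / 2) := sq_div_four (k + s + 1)
        -- use the other factor as r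
        set r := k + s + 1 - (k + s + 1 + 1) / 2 with hr
        have hr2 : (k + s + 1 + 1) / 2 = k + s + 1 - r := by omega
        have hPZ : (P : ℤ) = (r : ℤ) * (k + s + 1 - r) := by
          rw [hrv, hr2]
          push_cast [Nat.cast_sub (show r ≤ k + s + 1 by omega)]
          ring
        have hr3 : 2 * r + 1 = k + s + 1 ∨ 2 * r = k + s + 1 := by omega
        have hd2 : ∀ β : ℕ, 2 ≤ d → k - s ≤ (r + β - 1) * d := by
          intro β hd2
          have h5 : (r - 1) * 2 ≤ (r + β - 1) * d := Nat.mul_le_mul (by omega) hd2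
          omega
        have hfin : ∀ β : ℕ, (β = κ ∨ β + 1 = κ) → (β + κ) * d ≤ k - s → k - s ≤ (β + κ + 1) * d →
            k - s ≤ (r + β - 1) * d → ∃ a : Fin n0 → ℕ, InClass k s d n0 a ∧ ¬ Graphic n0 a := by
          intro β hβ h1 h2 h3
          have hκr : κ ≤ r := by omega
          have hrn : r + β + 1 ≤ n0 := by
            -- 2β ≤ k - s
            have h5 : 2 * β * d ≤ k - s := by
              refine le_trans (Nat.mul_le_mul_right d ?_) h1
              omega
            have h6 : 2 * β ≤ 2 * β * d := Nat.le_mul_of_pos_right _ hd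
            omega
          apply example_general hsk hd hκ1 hκr hrn h1 h2 hβ h3
          rw [← hPZ, ← hΛZ]
          have : s * n0 + Λ + 2 ≤ P := by omega
          exact_mod_cast this
        by_cases hI : k - s < 2 * κ * d
        · -- β = κ - 1
          obtain ⟨β, hβ⟩ : ∃ β, β + 1 = κ := ⟨κ - 1, by omega⟩
          apply hfin β (Or.inr hβ)
          · have e : (β + κ) * d + d = 2 * κ * d := by rw [← hβ]; ring
            omega
          · have e : (β + κ + 1) * d = 2 * κ * d := by rw [← hβ]; ring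
            omega
          · rcases (show 2 ≤ d ∨ d = 1 by omega) with h2 | h2
            · exact hd2 β h2
            · rw [h2, mul_one]
              rw [h2, mul_one] at hI
              omega
        · push Not at hI
          apply hfin κ (Or.inl rfl)
          · have e : (κ + κ) * d = 2 * κ * d := by ring
            omega
          · have e : (κ + κ + 1) * d = (2 * κ + 1) * d := by ring
            omega
          · rcases (show 2 ≤ d ∨ d = 1 by omega) with h2 | h2
            · exact hd2 κ h2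
            · rw [h2, mul_one]
              rw [h2, mul_one] at hI
              rw [h2, mul_one] at hκ3
              omega
    obtain ⟨a, h1, h2⟩ := hex
    exact h2 (hN n0 hN' a h1)

end Pool.Agent.H28.EG
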