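import Pool.Agent.H28.EG.Defs
import Pool.Agent.H28.EG.Main
import Pool.Agent.H28.EG.Bound

set_option autoImplicit false

namespace Pool.Agent.H28.EG

open Finset

theorem sum_fin_filter {M : Type*} [AddCommMonoid M] (n : ℕ) (p : ℕ → Prop) [DecidablePred p]
    (f : ℕ → M) :
    ∑ i ∈ univ.filter (fun i : Fin n => p i.val), f i.val = ∑ i ∈ (range n).filter p, f i := by
  rw [sum_filter, sum_filter, Fin.sum_univ_eq_sum_range (fun i => if p i then f i else 0) n]

theorem filter_lt (n r : ℕ) (h : r ≤ n) : (range n).filter (fun i => i < r) = range r := by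
  ext i; simp only [mem_filter, mem_range]; omega

theorem filter_ge (n r : ℕ) : (range n).filter (fun i => r ≤ i) = Ico r n := by
  ext i; simp only [mem_filter, mem_range, mem_Ico]; omega

theorem egIneq_iff {n : ℕ} (f : ℕ → ℕ) {r : ℕ} (h : r ≤ n) :
    EGIneq (fun i : Fin n => f i.val) r ↔
      ∑ i ∈ range r, f i ≤ r * (r - 1) + ∑ i ∈ Ico r n, min r (f i) := by
  unfold EGIneq
  rw [sum_fin_filter n (fun i => i < r) f, sum_fin_filter n (fun i => r ≤ i) (fun i => min r (f i)),
    filter_lt n r h, filter_ge]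

/-- the upper bound: long lists are graphic -/
theorem graphic_of_long {k s d n : ℕ} {a : Fin n → ℕ} (κ : ℕ) (hs : 1 ≤ s) (hsk : s < k)
    (hd : 1 ≤ d) (ha : InClass k s d n a) (hnk : k + 1 ≤ n)
    (hn : (((k + s + 1) ^ 2 / 4 : ℕ) : ℤ) - κ * ((k : ℤ) - s - κ * d) - 1 ≤ s * n) :
    Graphic n a := by
  obtain ⟨n, rfl⟩ : ∃ n', n = n' + 1 := ⟨n - 1, by omega⟩
  -- the extension
  let f : ℕ → ℕ := fun i => if h : i < n + 1 then a ⟨i, h⟩ else s
  have hf : ∀ i : Fin (n + 1), f i.val = a i := by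
    intro i
    show (if h : i.val < n + 1 then a ⟨i.val, h⟩ else s) = a i
    rw [dif_pos i.2]
  have hfk : ∀ i, f i ≤ k := by
    intro i
    by_cases h : i < n + 1
    · rw [show f i = a ⟨i, h⟩ from dif_pos h]; exact ha.le_max _
    · rw [show f i = s from dif_neg h]; omega
  have hfs : ∀ i, s ≤ f i := by
    intro i
    by_cases h : i < n + 1
    · rw [show f i = a ⟨i, h⟩ from dif_pos h]; exact ha.min_le _
    · rw [show f i = s from dif_neg h]
  have hanti : ∀ i j, i ≤ j → f j ≤ f i := by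
    intro i j hij
    by_cases h : j < n + 1
    · rw [show f j = a ⟨j, h⟩ from dif_pos h, show f i = a ⟨i, lt_of_le_of_lt hij h⟩ from dif_pos _]
      exact ha.nonincreasing _ _ hij
    · rw [show f j = s from dif_neg h]; exact hfs i
  have hf0 : f 0 = k := by
    obtain ⟨i, hi⟩ := ha.max_mem
    apply le_antisymm (hfk 0)
    rw [← hi, ← hf i]; exact hanti _ _ (Nat.zero_le _)
  have hfn : f n = s := by
    obtain ⟨i, hi⟩ := ha.min_mem
    apply le_antisymm _ (hfs n)
    rw [← hi, ← hf i]; exact hanti _ _ (by have := i.2; omega)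
  have hgap : ∀ i, f i ≤ f (i + 1) + d := by
    intro i
    by_cases h : i + 1 < n + 1
    · rw [show f (i + 1) = a ⟨i + 1, h⟩ from dif_pos h, show f i = a ⟨i, by omega⟩ from dif_pos _]
      exact ha.gap _ _ rfl
    · have h1 : f i ≤ s := by
        rw [← hfn]; exact hanti _ _ (by omega)
      have := hfs (i + 1)
      omega
  have hsum : ∑ i ∈ range (n + 1), f i = ∑ i, a i := by
    rw [← Fin.sum_univ_eq_sum_range]
    exact sum_congr rfl (fun i _ => hf i)
  have hfa : (fun i : Fin (n + 1) => f i.val) = a := funext hf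
  -- the graph
  have hgraph : ∃ G : SimpleGraph (Fin (n + 1)), ∀ i, deg G i = a i := by
    apply exists_graph (d := a)
    · intro i j hij; exact ha.nonincreasing i j hij
    · exact ha.even_sum
    · intro r hr1 hrn
      rw [← hfa, egIneq_iff f hrn]
      have hP1 : 4 * (((k + s + 1) ^ 2 / 4 : ℕ) : ℤ) ≤ ((k : ℤ) + s + 1) ^ 2 := by
        have : 4 * ((k + s + 1) ^ 2 / 4) ≤ (k + s + 1) ^ 2 := Nat.mul_div_le _ _
        exact_mod_cast this
      have hP2 : ((k : ℤ) + s + 1) ^ 2 ≤ 4 * (((k + s + 1) ^ 2 / 4 : ℕ) : ℤ) + 1 := by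
        have h1 : (k + s + 1) ^ 2 % 4 ≤ 1 := by
          rcases Nat.even_or_odd' (k + s + 1) with ⟨t, ht | ht⟩
          · rw [ht]; ring_nf; omega
          · rw [ht]; ring_nf; omega
        have h2 := Nat.div_add_mod ((k + s + 1) ^ 2) 4
        have h3 : (k + s + 1) ^ 2 ≤ 4 * ((k + s + 1) ^ 2 / 4) + 1 := by omega
        exact_mod_cast h3
      have key := all_ineq (n + 1) (fun i => (f i : ℤ)) k s d (((k + s + 1) ^ 2 / 4 : ℕ) : ℤ) κ
        (by exact_mod_cast hs) (by exact_mod_cast hd) hP1 hP2 (by exact_mod_cast hnk)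
        (by exact_mod_cast hn) (by exact_mod_cast hf0) (by simpa using hfn)
        (fun i => by exact_mod_cast hfk i) (fun i => by exact_mod_cast hfs i)
        (fun i j hij => by exact_mod_cast hanti i j hij) (fun i => by exact_mod_cast hgap i)
        (by
          have h := ha.even_sum
          rw [← hsum] at h
          rcases h with ⟨e, he⟩
          refine ⟨(e : ℤ), ?_⟩
          exact_mod_cast he) r hr1 hrn
      have h5 : ((r * (r - 1) : ℕ) : ℤ) = (r : ℤ) * (r - 1) := by
        push_cast [Nat.cast_sub hr1]; ring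
      have : ((∑ i ∈ range r, f i : ℕ) : ℤ) ≤ ((r * (r - 1) + ∑ i ∈ Ico r (n + 1), min r (f i) : ℕ) : ℤ) := by
        rw [Nat.cast_add, h5]
        push_cast
        exact key
      exact_mod_cast this
  obtain ⟨G, hG⟩ := hgraph
  exact ⟨G, hG⟩

/-- a nongraphic list, from a violated inequality -/
theorem not_graphic_of {n : ℕ} (f : ℕ → ℕ) {r : ℕ} (hr : r ≤ n)
    (h : r * (r - 1) + ∑ i ∈ Ico r n, min r (f i) < ∑ i ∈ range r, f i) :
    ¬ Graphic n (fun i => f i.val) := by
  rintro ⟨G, hG⟩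
  have h1 := ineq_of_graph G r hr
  have h2 : deg G = fun i : Fin n => f i.val := funext hG
  rw [h2, egIneq_iff f hr] at h1
  omega

theorem not_graphic_of_big {n : ℕ} (f : ℕ → ℕ) (hn : 1 ≤ n) (h : n ≤ f 0) :
    ¬ Graphic n (fun i => f i.val) := by
  rintro ⟨G, hG⟩
  have h1 := hG ⟨0, hn⟩
  have h2 : (G.neighborSet ⟨0, hn⟩).ncard < n := by
    have h3 : G.neighborSet ⟨0, hn⟩ ⊂ Set.univ := by
      rw [Set.ssubset_univ_iff]
      intro h4
      have : (⟨0, hn⟩ : Fin n) ∈ G.neighborSet ⟨0, hn⟩ := by rw [h4]; trivial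
      exact G.irrefl this
    have h5 := Set.ncard_lt_ncard h3 (Set.toFinite _)
    rwa [Set.ncard_univ, Nat.card_fin] at h5
  simp only at h1
  omega

end Pool.Agent.H28.EG
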